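import Mathlib

namespace Pool.Agent.FA2

open Cardinal Set

/-- A type which looks like the first uncountable ordinal: a well-order with countable initial
segments in which countable sets are bounded, of cardinality aleph one. -/
class Om1 (W : Type) [LinearOrder W] [WellFoundedLT W] : Prop where
  ctbl : ∀ x : W, (Set.Iio x).Countable
  bdd : ∀ s : Set W, s.Countable → ∃ y, ∀ x ∈ s, x < y
  card : #W = aleph 1

section

variable {W : Type} [LinearOrder W] [WellFoundedLT W] [Om1 W]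

theorem Om1.ctblIic (x : W) : (Set.Iic x).Countable := by
  have h : Set.Iic x = Set.Iio x ∪ {x} := by
    ext y
    simp [le_iff_lt_or_eq]
  rw [h]
  exact (Om1.ctbl x).union (Set.countable_singleton x)

theorem Om1.exists_gt (x : W) : ∃ y, x < y := by
  obtain ⟨y, hy⟩ := Om1.bdd {x} (Set.countable_singleton x)
  exact ⟨y, hy x rfl⟩

theorem Om1.exists_gt_nonempty : Nonempty W := by
  obtain ⟨y, -⟩ := Om1.bdd (∅ : Set W) Set.countable_empty
  exact ⟨y⟩

theorem Om1.not_countable_univ : ¬ (Set.univ : Set W).Countable := by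
  intro h
  obtain ⟨y, hy⟩ := Om1.bdd _ h
  exact lt_irrefl y (hy y (Set.mem_univ y))

/-- least upper bound of a strictly increasing sequence -/
theorem Om1.exists_sup (s : ℕ → W) :
    ∃ δ, (∀ n, s n < δ) ∧ ∀ z < δ, ∃ n, z ≤ s n := by
  obtain ⟨y, hy⟩ := Om1.bdd (Set.range s) (Set.countable_range s)
  have hne : ({y | ∀ n, s n < y} : Set W).Nonempty := ⟨y, fun n => hy _ ⟨n, rfl⟩⟩
  have wf : WellFounded ((· < ·) : W → W → Prop) := wellFounded_lt
  refine ⟨wf.min _ hne, wf.min_mem _ hne, fun z hz => ?_⟩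
  by_contra hcon
  push Not at hcon
  have hz' : z ∈ ({y | ∀ n, s n < y} : Set W) := by
    intro n
    have h1 := hcon n
    exact h1
  exact wf.not_lt_min _ hz' hz

structure IsClub1 (C : Set W) : Prop where
  unb : ∀ z, ∃ c ∈ C, z < c
  closed : ∀ δ, (∃ z, z < δ) → (∀ z < δ, ∃ c ∈ C, z < c ∧ c < δ) → δ ∈ C

theorem IsClub1.iInter {C : ℕ → Set W} (h : ∀ n, IsClub1 (C n)) : IsClub1 (⋂ n, C n) := by
  constructor
  · intro z
    choose c hcC hcz using fun (n : ℕ) (ζ : W) => (h n).unb ζ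
    choose nx hnx using fun ζ : W => Om1.bdd (Set.range fun n => c n ζ) (Set.countable_range _)
    let s : ℕ → W := fun k => Nat.rec z (fun _ ζ => nx ζ) k
    have hs0 : s 0 = z := rfl
    have hs1 : ∀ k, s (k + 1) = nx (s k) := fun k => rfl
    have hcs : ∀ n k, c n (s k) < s (k + 1) := fun n k => by
      rw [hs1]; exact hnx _ _ ⟨n, rfl⟩
    have hs : ∀ k, s k < s (k + 1) := fun k => (hcz 0 (s k)).trans (hcs 0 k)
    obtain ⟨δ, hδ, hδ2⟩ := Om1.exists_sup s
    refine ⟨δ, ?_, hs0 ▸ hδ 0⟩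
    rw [Set.mem_iInter]
    intro n
    refine (h n).closed δ ⟨s 0, hδ 0⟩ fun z hz => ?_
    obtain ⟨k, hk⟩ := hδ2 z hz
    exact ⟨c n (s k), hcC n _, lt_of_le_of_lt hk (hcz n _), (hcs n k).trans (hδ (k + 1))⟩
  · intro δ hδ hcl
    rw [Set.mem_iInter]
    intro n
    refine (h n).closed δ hδ fun z hz => ?_
    obtain ⟨c, hc, h1⟩ := hcl z hz
    exact ⟨c, Set.mem_iInter.1 hc n, h1⟩

theorem IsClub1.inter {C D : Set W} (hC : IsClub1 C) (hD : IsClub1 D) : IsClub1 (C ∩ D) := by
  have h : IsClub1 (⋂ n : ℕ, if n = 0 then C else D) := by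
    apply IsClub1.iInter
    intro n
    split_ifs
    · exact hC
    · exact hD
  have e : (⋂ n : ℕ, if n = 0 then C else D) = C ∩ D := by
    ext x
    simp only [Set.mem_iInter, Set.mem_inter_iff]
    constructor
    · intro hx
      exact ⟨by simpa using hx 0, by simpa using hx 1⟩
    · rintro ⟨h1, h2⟩ n
      split_ifs
      · exact h1
      · exact h2
  rwa [e] at h

theorem isClub1_closure (φ : W → W) : IsClub1 {δ : W | ∀ i < δ, φ i < δ} := by
  constructor
  · intro z
    choose nx hnx using fun ζ : W =>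
      Om1.bdd (Set.Iic ζ ∪ φ '' Set.Iic ζ) ((Om1.ctblIic ζ).union ((Om1.ctblIic ζ).image φ))
    let s : ℕ → W := fun k => Nat.rec z (fun _ ζ => nx ζ) k
    have hs0 : s 0 = z := rfl
    have hs1 : ∀ k, s (k + 1) = nx (s k) := fun k => rfl
    have hs : ∀ k, s k < s (k + 1) := fun k => by
      rw [hs1]; exact hnx _ _ (Or.inl (Set.mem_Iic.2 le_rfl))
    obtain ⟨δ, hδ, hδ2⟩ := Om1.exists_sup s
    refine ⟨δ, ?_, hs0 ▸ hδ 0⟩
    intro i hi
    obtain ⟨k, hk⟩ := hδ2 i hi
    have : φ i < s (k + 1) := by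
      rw [hs1]
      exact hnx _ _ (Or.inr ⟨i, hk, rfl⟩)
    exact this.trans (hδ (k + 1))
  · intro δ _ hcl i hi
    obtain ⟨c, hc, h1, h2⟩ := hcl i hi
    exact (hc i h1).trans h2

/-- A countable family of functions: the simultaneous closure points form a club. -/
theorem isClub1_closure_nat (φ : ℕ → W → W) : IsClub1 {δ : W | ∀ n, ∀ i < δ, φ n i < δ} := by
  have h := IsClub1.iInter fun n => isClub1_closure (φ n)
  have e : (⋂ n, {δ : W | ∀ i < δ, φ n i < δ}) = {δ : W | ∀ n, ∀ i < δ, φ n i < δ} := by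
    ext x
    simp
  rwa [e] at h

end

end Pool.Agent.FA2
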