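import Mathlib
import Pool.Agent.FA2.Om1

namespace Pool.Agent.FA2

open Cardinal Set

/-- The set `a` embeds (strictly monotonically) below `ε`: its order type is at most that of
the initial segment below `ε`. -/
def Small {J W : Type} [LT W] (r : J → J → Prop) (ε : W) (a : Set J) : Prop :=
  ∃ g : J → W, (∀ x ∈ a, g x < ε) ∧ ∀ x ∈ a, ∀ y ∈ a, r x y → g x < g y

section

variable {W : Type} [LinearOrder W] [WellFoundedLT W] [Om1 W]
variable {J : Type} (r : J → J → Prop) [IsWellOrder J r]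

omit [WellFoundedLT W] [Om1 W] in
theorem Small.mono {r : J → J → Prop} {ε ε' : W} {a : Set J} (h : Small r ε a) (he : ε ≤ ε') :
    Small r ε' a := by
  obtain ⟨g, h1, h2⟩ := h
  exact ⟨g, fun x hx => (h1 x hx).trans_le he, h2⟩

theorem thin_step (β : W → J) (hβ : Function.Injective β) (I : Set W) (hI : ¬ I.Countable) :
    ∃ I' : Set W, I' ⊆ I ∧ ¬ I'.Countable ∧
      ∀ i ∈ I', {i' | i' ∈ I' ∧ ¬ r (β i) (β i')}.Countable := by
  classical
  have key : ∀ I' : Set W, I' ⊆ I → (∀ i ∈ I', {i' | i' ∈ I' ∧ r (β i') (β i)}.Countable) →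
      ∀ i ∈ I', {i' | i' ∈ I' ∧ ¬ r (β i) (β i')}.Countable := by
    intro I' _ h i hi
    refine ((h i hi).union (Set.countable_singleton i)).mono ?_
    rintro i' ⟨hi', hr⟩
    rcases trichotomous_of r (β i) (β i') with h1 | h1 | h1
    · exact absurd h1 hr
    · right
      exact (hβ h1).symm
    · left
      exact ⟨hi', h1⟩
  by_cases hB : ∃ x, ¬ {i | i ∈ I ∧ r (β i) x}.Countable
  · have wf : WellFounded r := IsWellFounded.wf
    have hne : ({x | ¬ {i | i ∈ I ∧ r (β i) x}.Countable} : Set J).Nonempty := hB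
    set x := wf.min _ hne with hx
    have hxm : ¬ {i | i ∈ I ∧ r (β i) x}.Countable := wf.min_mem _ hne
    refine ⟨{i | i ∈ I ∧ r (β i) x}, fun i hi => hi.1, hxm, key _ (fun i hi => hi.1) ?_⟩
    intro i hi
    have h1 : {i' | i' ∈ I ∧ r (β i') (β i)}.Countable := by
      by_contra hcon
      exact wf.not_lt_min _ (show β i ∈ {x | ¬ {i | i ∈ I ∧ r (β i) x}.Countable} from hcon) hi.2
    refine h1.mono ?_
    rintro i' ⟨⟨hi', -⟩, hr⟩
    exact ⟨hi', hr⟩
  · push Not at hB
    exact ⟨I, subset_rfl, hI, key _ subset_rfl fun i _ => hB (β i)⟩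

theorem thin (n : ℕ) (β : Fin n → W → J) (hβ : ∀ l, Function.Injective (β l)) :
    ∃ I : Set W, ¬ I.Countable ∧
      ∀ l, ∀ i ∈ I, {i' | i' ∈ I ∧ ¬ r (β l i) (β l i')}.Countable := by
  classical
  have main : ∀ L : List (Fin n), ∃ I : Set W, ¬ I.Countable ∧
      ∀ l ∈ L, ∀ i ∈ I, {i' | i' ∈ I ∧ ¬ r (β l i) (β l i')}.Countable := by
    intro L
    induction L with
    | nil => exact ⟨Set.univ, Om1.not_countable_univ, by simp⟩
    | cons l L ih =>
      obtain ⟨I, hI, hI2⟩ := ih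
      obtain ⟨I', h1, h2, h3⟩ := thin_step r (β l) (hβ l) I hI
      refine ⟨I', h2, ?_⟩
      intro l' hl' i hi
      rcases List.mem_cons.1 hl' with rfl | hl'
      · exact h3 i hi
      · refine (hI2 l' hl' i (h1 hi)).mono ?_
        rintro i' ⟨hi', hr⟩
        exact ⟨h1 hi', hr⟩
  obtain ⟨I, hI, hI2⟩ := main (List.finRange n)
  exact ⟨I, hI, fun l => hI2 l (List.mem_finRange l)⟩

omit [Om1 W] in
theorem strictMono_contra (ε : W) (φ : W → W) (h1 : ∀ t ≤ ε, φ t < ε)
    (h2 : ∀ t ≤ ε, ∀ t' < t, φ t' < φ t) : False := by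
  have key : ∀ t, t ≤ ε → t ≤ φ t := by
    intro t
    induction t using WellFoundedLT.induction with
    | ind t ih =>
      intro ht
      by_contra hcon
      push Not at hcon
      have h3 := ih (φ t) hcon (hcon.le.trans ht)
      have h4 := h2 t ht (φ t) hcon
      exact absurd h3 (not_le.2 h4)
  exact absurd (key ε le_rfl) (not_le.2 (h1 ε le_rfl))

theorem blocks (V : W → W) (u : W) (Bad : W → Set W) (hBad : ∀ x, (Bad x).Countable) :
    ∃ U : W → W, (∀ t, u < U t) ∧ (∀ t, ∀ t' < t, V (U t') < U t) ∧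
      ∀ t, ∀ t' < t, ∀ i ∈ Bad (V (U t')), i < U t := by
  classical
  have ex : ∀ (t : W) (f : ∀ t' : W, t' < t → W), ∃ y : W, u < y ∧
      (∀ t' (h : t' < t), V (f t' h) < y) ∧ ∀ t' (h : t' < t), ∀ i ∈ Bad (V (f t' h)), i < y := by
    intro t f
    have hc : ({u} ∪ (⋃ t' : Set.Iio t, ({V (f t'.1 t'.2)} ∪ Bad (V (f t'.1 t'.2))))).Countable := by
      have : Countable (Set.Iio t) := (Om1.ctbl t).to_subtype
      exact (Set.countable_singleton u).union (Set.countable_iUnion fun t' =>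
        (Set.countable_singleton _).union (hBad _))
    obtain ⟨y, hy⟩ := Om1.bdd _ hc
    refine ⟨y, hy u (Or.inl rfl), fun t' h => hy _ (Or.inr ?_), fun t' h i hi => hy _ (Or.inr ?_)⟩
    · exact Set.mem_iUnion.2 ⟨⟨t', h⟩, Or.inl rfl⟩
    · exact Set.mem_iUnion.2 ⟨⟨t', h⟩, Or.inr hi⟩
  choose F hF1 hF2 hF3 using ex
  let U : W → W := WellFounded.fix (wellFounded_lt (α := W)) F
  have hU : ∀ t, U t = F t (fun t' _ => U t') := fun t => WellFounded.fix_eq _ _ _
  refine ⟨U, fun t => ?_, fun t t' h => ?_, fun t t' h i hi => ?_⟩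
  · rw [hU]; exact hF1 _ _
  · rw [hU t]; exact hF2 t (fun t' _ => U t') t' h
  · rw [hU t]; exact hF3 t (fun t' _ => U t') t' h i hi

theorem avoid_aux (n : ℕ) (β : Fin n → W → J) (I : Set W) (hI : ¬ I.Countable)
    (hT : ∀ l, ∀ i ∈ I, {i' | i' ∈ I ∧ ¬ r (β l i) (β l i')}.Countable) (ε : W) (k : ℕ) :
    ∀ u : W, ∃ v : W, ∀ L : List (Fin n × Set J), L.length = k → (∀ x ∈ L, Small r ε x.2) →
      ∃ i ∈ I, u ≤ i ∧ i < v ∧ ∀ x ∈ L, β x.1 i ∉ x.2 := by
  classical
  induction k with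
  | zero =>
    intro u
    have h1 : ∃ i ∈ I, u ≤ i := by
      by_contra hcon
      push Not at hcon
      exact hI ((Om1.ctbl u).mono hcon)
    obtain ⟨i, hi, hui⟩ := h1
    obtain ⟨v, hv⟩ := Om1.exists_gt i
    refine ⟨v, fun L hL _ => ⟨i, hi, hui, hv, ?_⟩⟩
    rw [List.length_eq_zero_iff] at hL
    subst hL
    simp
  | succ k ih =>
    intro u
    choose V hV using ih
    let Bad : W → Set W := fun x => ⋃ i' : Set.Iio x, ⋃ l : Fin n,
      {i | i ∈ I ∧ i'.1 ∈ I ∧ ¬ r (β l i'.1) (β l i)}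
    have hBad : ∀ x, (Bad x).Countable := by
      intro x
      have : Countable (Set.Iio x) := (Om1.ctbl x).to_subtype
      refine Set.countable_iUnion fun i' => Set.countable_iUnion fun l => ?_
      by_cases hi' : i'.1 ∈ I
      · refine (hT l i'.1 hi').mono ?_
        rintro i ⟨hi, -, hr⟩
        exact ⟨hi, hr⟩
      · convert Set.countable_empty
        ext i
        simp [hi']
    obtain ⟨U, hU1, hU2, hU3⟩ := blocks V u Bad hBad
    obtain ⟨v, hv⟩ := Om1.bdd ((fun t => V (U t)) '' Set.Iic ε) ((Om1.ctblIic ε).image _)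
    refine ⟨v, fun L hL hsm => ?_⟩
    match L, hL, hsm with
    | x :: L, hL, hsm =>
      have hL' : L.length = k := by simpa using hL
      have hsm' : ∀ y ∈ L, Small r ε y.2 := fun y hy => hsm y (List.mem_cons_of_mem _ hy)
      obtain ⟨g, hg1, hg2⟩ := hsm x (List.mem_cons_self)
      by_cases hall : ∀ t ≤ ε, ∃ i ∈ I, U t ≤ i ∧ i < V (U t) ∧ β x.1 i ∈ x.2
      · exfalso
        choose! it h1 h2 h3 h4 using hall
        refine strictMono_contra ε (fun t => g (β x.1 (it t))) (fun t ht => hg1 _ (h4 t ht)) ?_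
        intro t ht t' htt
        have ht' := (htt.le).trans ht
        refine hg2 _ (h4 t' ht') _ (h4 t ht) ?_
        by_contra hr
        have hb : it t ∈ Bad (V (U t')) := by
          refine Set.mem_iUnion.2 ⟨⟨it t', h3 t' ht'⟩, Set.mem_iUnion.2 ⟨x.1, ?_⟩⟩
          exact ⟨h1 t ht, h1 t' ht', hr⟩
        have := hU3 t t' htt _ hb
        exact absurd this (not_lt.2 (h2 t ht))
      · push Not at hall
        obtain ⟨t, ht, hall⟩ := hall
        obtain ⟨i, hi, h1, h2, h3⟩ := hV (U t) L hL' hsm'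
        refine ⟨i, hi, (hU1 t).le.trans h1, h2.trans (hv _ ⟨t, ht, rfl⟩), ?_⟩
        intro y hy
        rcases List.mem_cons.1 hy with rfl | hy
        · exact hall i hi h1 h2
        · exact h3 y hy

/-- The avoidance lemma: for an omega_1-sequence of pairwise disjoint finite sets and every
countable ordinal `ε`, some countable initial part of the sequence cannot be met by `m` sets of
order type at most `ε`. -/
theorem avoid (n : ℕ) (β : Fin n → W → J) (hβ : ∀ l, Function.Injective (β l)) (m : ℕ) (ε : W) :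
    ∃ θ : W, ∀ A : List (Set J), A.length = m → (∀ a ∈ A, Small r ε a) →
      ∃ i < θ, ∀ a ∈ A, ∀ l, β l i ∉ a := by
  classical
  obtain ⟨I, hI, hT⟩ := thin r n β hβ
  obtain ⟨u, -⟩ := Om1.bdd (∅ : Set W) Set.countable_empty
  obtain ⟨v, hv⟩ := avoid_aux r n β I hI hT ε (n * m) u
  refine ⟨v, fun A hA hsm => ?_⟩
  obtain ⟨i, -, -, h2, h3⟩ := hv ((List.finRange n) ×ˢ A) (by
    rw [List.length_product, List.length_finRange, hA]) (by
      rintro ⟨l, a⟩ h
      exact hsm a (List.pair_mem_product.1 h).2)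
  refine ⟨i, h2, fun a ha l => h3 (l, a) ?_⟩
  exact List.pair_mem_product.2 ⟨List.mem_finRange l, ha⟩

/-- Every countable set is small for some `ε`. -/
theorem exists_small (a : Set J) (ha : a.Countable) : ∃ ε : W, Small r ε a := by
  classical
  have wf : WellFounded r := IsWellFounded.wf
  have ex : ∀ (x : J) (f : ∀ y : J, r y x → W), ∃ w : W, ∀ y (h : r y x), y ∈ a → f y h < w := by
    intro x f
    have hc : {w : W | ∃ y, ∃ h : r y x, y ∈ a ∧ f y h = w}.Countable := by
      have h1 : {w : W | ∃ y, ∃ h : r y x, y ∈ a ∧ f y h = w} ⊆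
          (fun y => if h : r y x then f y h else Classical.choice (Om1.exists_gt_nonempty (W := W))) '' a := by
        rintro w ⟨y, h, hy, rfl⟩
        exact ⟨y, hy, by simp [h]⟩
      exact (ha.image _).mono h1
    obtain ⟨w, hw⟩ := Om1.bdd _ hc
    exact ⟨w, fun y h hy => hw _ ⟨y, h, hy, rfl⟩⟩
  choose F hF using ex
  let g : J → W := WellFounded.fix wf F
  have hg : ∀ x, g x = F x (fun y _ => g y) := fun x => WellFounded.fix_eq _ _ _
  obtain ⟨ε, hε⟩ := Om1.bdd (g '' a) (ha.image g)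
  refine ⟨ε, g, fun x hx => hε _ ⟨x, hx, rfl⟩, fun x hx y hy hr => ?_⟩
  rw [hg y]
  exact hF y (fun y _ => g y) x hr hx

end

end Pool.Agent.FA2
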