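import Mathlib

namespace Pool.Agent.FA2

open Cardinal Set

/-- Two conditions of a poset are compatible if they have a common extension
(`r ≤ p` means that `r` extends `p`). -/
def Compat {P : Type} [PartialOrder P] (p q : P) : Prop := ∃ r, r ≤ p ∧ r ≤ q

/-- A set is dense if every condition has an extension in it. -/
def DenseIn {P : Type} [PartialOrder P] (D : Set P) : Prop := ∀ p, ∃ d ∈ D, d ≤ p

/-- Filters: non-empty, upward closed, and any two members have a common extension in it. -/
structure IsFilt {P : Type} [PartialOrder P] (G : Set P) : Prop where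
  nonempty : G.Nonempty
  upward : ∀ p ∈ G, ∀ q, p ≤ q → q ∈ G
  directed : ∀ p ∈ G, ∀ q ∈ G, ∃ r ∈ G, r ≤ p ∧ r ≤ q

/-- The forcing axiom for one poset: every family of at most aleph two dense sets is met by
a filter. -/
def FAaleph2 (P : Type) [PartialOrder P] : Prop :=
  ∀ F : Set (Set P), #F ≤ aleph 2 → (∀ D ∈ F, DenseIn D) →
    ∃ G, IsFilt G ∧ ∀ D ∈ F, (G ∩ D).Nonempty

/-- The aleph two chain condition: every antichain has at most aleph one elements. -/
def CCaleph2 (P : Type) [PartialOrder P] : Prop :=
  ∀ A : Set P, (∀ p ∈ A, ∀ q ∈ A, p ≠ q → ¬ Compat p q) → #A ≤ aleph 1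

/-- A closed unbounded family of countable subsets of `X`. -/
structure IsClubCtbl {X : Type} (C : Set (Set X)) : Prop where
  ctbl : ∀ M ∈ C, M.Countable
  cofinal : ∀ s : Set X, s.Countable → ∃ M ∈ C, s ⊆ M
  chain : ∀ M : ℕ → Set X, (∀ n, M n ∈ C) → (∀ n, M n ⊆ M (n + 1)) → (⋃ n, M n) ∈ C

/-- `q` is an `(M, P)`-generic condition: for every dense set `D` in `M`, the set `D ∩ M` is
predense below `q`, that is, `q` forces that the generic filter meets `D ∩ M`. Here `P` and its
power set are seen inside the set `X` (which plays the role of `H(θ)`) by the maps `i`, `j`. -/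
def IsGeneric {P X : Type} [PartialOrder P] (i : P → X) (j : Set P → X) (M : Set X) (q : P) :
    Prop :=
  ∀ D : Set P, DenseIn D → j D ∈ M → ∀ r ≤ q, ∃ d ∈ D, i d ∈ M ∧ Compat r d

/-- Properness: for every set `X` which contains `P` and the power set of `P` (such as `H(θ)`
for all large `θ`), for club many countable `M ⊆ X`, every condition in `M` has an extension
which is `(M, P)`-generic. -/
def ProperPoset (P : Type) [PartialOrder P] : Prop :=
  ∀ (X : Type) (i : P → X) (j : Set P → X), Function.Injective i → Function.Injective j →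
    ∃ C : Set (Set X), IsClubCtbl C ∧
      ∀ M ∈ C, ∀ p : P, i p ∈ M → ∃ q ≤ p, IsGeneric i j M q

end Pool.Agent.FA2
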