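import Mathlib
import Pool.Agent.FA2.Om1
import Pool.Agent.FA2.Avoid
import Pool.Agent.FA2.Defs

namespace Pool.Agent.FA2

open Cardinal Set

/-- The conditions of the main poset. -/
structure Cond {W K : Type} [LinearOrder W] (r : K × W → K × W → Prop) (R : K → W → Set W) where
  B : Finset (W × W × W)
  h : Finset ((K × W) × W)
  A : Finset (W × Set (K × W))
  hB1 : ∀ b ∈ B, (∃ z, z < b.1) ∧ b.1 ≤ b.2.1 ∧ b.2.2 ≤ b.2.1
  hB2 : ∀ b ∈ B, ∀ b' ∈ B, b.1 < b'.1 → b.2.1 < b'.1
  hB3 : ∀ b ∈ B, ∀ b' ∈ B, b.1 = b'.1 → b = b'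
  hh : ∀ x v w, (x, v) ∈ h → (x, w) ∈ h → v = w
  hA : ∀ a ∈ A, a.2.Countable ∧ ∃ b ∈ B, b.1 = a.1 ∧ Small r b.2.1 a.2 ∧
    ∀ x ∈ a.2, b.2.2 ∈ R x.1 a.1
  hAh : ∀ a ∈ A, ∀ y ∈ h, y.1 ∈ a.2 → y.2 < a.1

section

variable {W K : Type} [LinearOrder W] {r : K × W → K × W → Prop} {R : K → W → Set W}

theorem Cond.ext' {p q : Cond r R} (h1 : p.B = q.B) (h2 : p.h = q.h) (h3 : p.A = q.A) : p = q := by
  cases p
  cases q
  simp only at h1 h2 h3
  subst h1 h2 h3
  rfl

instance : PartialOrder (Cond r R) where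
  le p q := q.B ⊆ p.B ∧ q.h ⊆ p.h ∧ q.A ⊆ p.A
  le_refl p := ⟨Finset.Subset.refl _, Finset.Subset.refl _, Finset.Subset.refl _⟩
  le_trans p q s h1 h2 := ⟨h2.1.trans h1.1, h2.2.1.trans h1.2.1, h2.2.2.trans h1.2.2⟩
  le_antisymm p q h1 h2 := Cond.ext' (Finset.Subset.antisymm h2.1 h1.1)
    (Finset.Subset.antisymm h2.2.1 h1.2.1) (Finset.Subset.antisymm h2.2.2 h1.2.2)

theorem Cond.le_iff {p q : Cond r R} : p ≤ q ↔ q.B ⊆ p.B ∧ q.h ⊆ p.h ∧ q.A ⊆ p.A := Iff.rfl

theorem Cond.union (p q : Cond r R)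
    (u1 : ∀ b ∈ p.B, ∀ b' ∈ q.B, (b.1 < b'.1 → b.2.1 < b'.1) ∧ (b'.1 < b.1 → b'.2.1 < b.1) ∧
      (b.1 = b'.1 → b = b'))
    (u2 : ∀ x v w, (x, v) ∈ p.h → (x, w) ∈ q.h → v = w)
    (u3 : ∀ a ∈ p.A, ∀ y ∈ q.h, y.1 ∈ a.2 → y.2 < a.1)
    (u4 : ∀ a ∈ q.A, ∀ y ∈ p.h, y.1 ∈ a.2 → y.2 < a.1) :
    ∃ s : Cond r R, s ≤ p ∧ s ≤ q ∧ (∀ b, b ∈ s.B ↔ b ∈ p.B ∨ b ∈ q.B) ∧
      (∀ y, y ∈ s.h ↔ y ∈ p.h ∨ y ∈ q.h) ∧ (∀ a, a ∈ s.A ↔ a ∈ p.A ∨ a ∈ q.A) := by
  classical
  refine ⟨⟨p.B ∪ q.B, p.h ∪ q.h, p.A ∪ q.A, ?_, ?_, ?_, ?_, ?_, ?_⟩, ?_, ?_, ?_, ?_, ?_⟩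
  · intro b hb
    rcases Finset.mem_union.1 hb with hb | hb
    · exact p.hB1 b hb
    · exact q.hB1 b hb
  · intro b hb b' hb' hlt
    rcases Finset.mem_union.1 hb with hb | hb <;> rcases Finset.mem_union.1 hb' with hb' | hb'
    · exact p.hB2 b hb b' hb' hlt
    · exact (u1 b hb b' hb').1 hlt
    · exact (u1 b' hb' b hb).2.1 hlt
    · exact q.hB2 b hb b' hb' hlt
  · intro b hb b' hb' he
    rcases Finset.mem_union.1 hb with hb | hb <;> rcases Finset.mem_union.1 hb' with hb' | hb'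
    · exact p.hB3 b hb b' hb' he
    · exact (u1 b hb b' hb').2.2 he
    · exact ((u1 b' hb' b hb).2.2 he.symm).symm
    · exact q.hB3 b hb b' hb' he
  · intro x v w hv hw
    rcases Finset.mem_union.1 hv with hv | hv <;> rcases Finset.mem_union.1 hw with hw | hw
    · exact p.hh x v w hv hw
    · exact u2 x v w hv hw
    · exact (u2 x w v hw hv).symm
    · exact q.hh x v w hv hw
  · intro a ha
    rcases Finset.mem_union.1 ha with ha | ha
    · obtain ⟨h1, b, hb, h2⟩ := p.hA a ha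
      exact ⟨h1, b, Finset.mem_union_left _ hb, h2⟩
    · obtain ⟨h1, b, hb, h2⟩ := q.hA a ha
      exact ⟨h1, b, Finset.mem_union_right _ hb, h2⟩
  · intro a ha y hy hya
    rcases Finset.mem_union.1 ha with ha | ha <;> rcases Finset.mem_union.1 hy with hy | hy
    · exact p.hAh a ha y hy hya
    · exact u3 a ha y hy hya
    · exact u4 a ha y hy hya
    · exact q.hAh a ha y hy hya
  · exact ⟨Finset.subset_union_left, Finset.subset_union_left, Finset.subset_union_left⟩
  · exact ⟨Finset.subset_union_right, Finset.subset_union_right, Finset.subset_union_right⟩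
  · intro b
    exact Finset.mem_union
  · intro b
    exact Finset.mem_union
  · intro b
    exact Finset.mem_union

end

/-! ### the chain condition -/

section

variable {W K : Type} [LinearOrder W] [WellFoundedLT W] [Om1 W]
  {r : K × W → K × W → Prop} {R : K → W → Set W}

/-- all coordinates mentioned by the finite part or by the side conditions -/
def Cond.full (p : Cond r R) : Set (K × W) :=
  {x | ∃ v, (x, v) ∈ p.h} ∪ ⋃ a ∈ p.A, a.2

omit [WellFoundedLT W] [Om1 W] in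
theorem Cond.full_countable (p : Cond r R) : p.full.Countable := by
  classical
  refine Set.Countable.union ?_ ?_
  · have : {x | ∃ v, (x, v) ∈ p.h} ⊆ Prod.fst '' (p.h : Set ((K × W) × W)) := by
      rintro x ⟨v, hv⟩
      exact ⟨(x, v), hv, rfl⟩
    exact ((p.h.finite_toSet.image _).subset this).countable
  · exact p.A.finite_toSet.countable.biUnion fun a ha => (p.hA a ha).1

theorem card_iUnion_le {ι α : Type} (s : ι → Set α) (hι : #ι ≤ aleph 1)
    (hs : ∀ i, #(s i) ≤ aleph 1) : #(⋃ i, s i) ≤ aleph 1 := by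
  refine (Cardinal.mk_iUnion_le_sum_mk).trans ?_
  refine (Cardinal.sum_le_sum _ (fun _ => aleph 1) hs).trans ?_
  rw [Cardinal.sum_const']
  exact (mul_le_mul' hι le_rfl).trans (Cardinal.mul_eq_self (Cardinal.aleph0_le_aleph 1)).le

theorem card_ctbl_le {α : Type} {s : Set α} (hs : s.Countable) : #s ≤ aleph 1 :=
  (Cardinal.mk_le_aleph0_iff.2 hs.to_subtype).trans (Cardinal.aleph0_le_aleph 1)

open Classical in
theorem cc_aux (Y : Set (Cond r R)) (hY : ∀ p ∈ Y, ∀ q ∈ Y, p ≠ q → ¬ Compat p q)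
    (B : Finset (W × W × W)) (n : ℕ) : ∀ s : Finset ((K × W) × W),
      #{p : Cond r R | p ∈ Y ∧ p.B = B ∧ s ⊆ p.h ∧ (p.h \ s).card = n} ≤ aleph 1 := by
  have hu1 : ∀ p q : Cond r R, p.B = B → q.B = B → ∀ b ∈ p.B, ∀ b' ∈ q.B,
      (b.1 < b'.1 → b.2.1 < b'.1) ∧ (b'.1 < b.1 → b'.2.1 < b.1) ∧ (b.1 = b'.1 → b = b') := by
    intro p q hp hq b hb b' hb'
    rw [hq, ← hp] at hb'
    exact ⟨p.hB2 b hb b' hb', p.hB2 b' hb' b hb, p.hB3 b hb b' hb'⟩
  induction n with
  | zero =>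
    intro s
    have hsub : {p : Cond r R | p ∈ Y ∧ p.B = B ∧ s ⊆ p.h ∧ (p.h \ s).card = 0}.Subsingleton := by
      rintro p ⟨hpY, hpB, hps, hpc⟩ q ⟨hqY, hqB, hqs, hqc⟩
      by_contra hne
      have e1 : p.h = s := by
        rw [Finset.card_eq_zero, Finset.sdiff_eq_empty_iff_subset] at hpc
        exact Finset.Subset.antisymm hpc hps
      have e2 : q.h = s := by
        rw [Finset.card_eq_zero, Finset.sdiff_eq_empty_iff_subset] at hqc
        exact Finset.Subset.antisymm hqc hqs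
      obtain ⟨t, h1, h2, -⟩ := Cond.union p q (hu1 p q hpB hqB)
        (fun x v w hv hw => by rw [e2, ← e1] at hw; exact p.hh x v w hv hw)
        (fun a ha y hy => by rw [e2, ← e1] at hy; exact p.hAh a ha y hy)
        (fun a ha y hy => by rw [e1, ← e2] at hy; exact q.hAh a ha y hy)
      exact hY p hpY q hqY hne ⟨t, h1, h2⟩
    exact card_ctbl_le hsub.countable
  | succ n ih =>
    intro s
    set S := {p : Cond r R | p ∈ Y ∧ p.B = B ∧ s ⊆ p.h ∧ (p.h \ s).card = n + 1} with hS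
    by_cases H : ∃ Z : Set (K × W), #Z ≤ aleph 1 ∧ ∀ p ∈ S, ∃ y ∈ p.h \ s, y.1 ∈ Z
    · obtain ⟨Z, hZ, hZS⟩ := H
      have hcov : S ⊆ ⋃ y : Z × W, {p : Cond r R | p ∈ Y ∧ p.B = B ∧
          insert (y.1.1, y.2) s ⊆ p.h ∧ (p.h \ insert (y.1.1, y.2) s).card = n} := by
        intro p hp
        obtain ⟨⟨x, v⟩, hy, hyZ⟩ := hZS p hp
        obtain ⟨hpY, hpB, hps, hpc⟩ := hp
        rw [Finset.mem_sdiff] at hy
        refine Set.mem_iUnion.2 ⟨(⟨x, hyZ⟩, v), hpY, hpB, ?_, ?_⟩
        · exact Finset.insert_subset hy.1 hps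
        · have e : p.h \ s = insert (x, v) (p.h \ insert (x, v) s) := by
            ext z
            simp only [Finset.mem_sdiff, Finset.mem_insert, not_or]
            constructor
            · rintro ⟨h1, h2⟩
              by_cases hz : z = (x, v)
              · exact Or.inl hz
              · exact Or.inr ⟨h1, hz, h2⟩
            · rintro (rfl | ⟨h1, h2, h3⟩)
              · exact hy
              · exact ⟨h1, h3⟩
          have hnot : (x, v) ∉ p.h \ insert (x, v) s := by simp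
          rw [e, Finset.card_insert_of_notMem hnot] at hpc
          exact Nat.succ_injective hpc
      refine (Cardinal.mk_le_mk_of_subset hcov).trans (card_iUnion_le _ ?_ fun y => ih _)
      rw [Cardinal.mk_prod, Cardinal.lift_id, Cardinal.lift_id]
      exact (mul_le_mul' hZ (Om1.card (W := W)).le).trans
        (Cardinal.mul_eq_self (Cardinal.aleph0_le_aleph 1)).le
    · exfalso
      push Not at H
      -- choose a sequence
      have wf : WellFounded ((· < ·) : W → W → Prop) := wellFounded_lt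
      have ex : ∀ (t : W) (f : ∀ t' : W, t' < t → Cond r R), ∃ p : Cond r R, p ∈ S ∧
          ∀ t' (ht : t' < t), ∀ y ∈ p.h \ s, y.1 ∉ (f t' ht).full := by
        intro t f
        have hc : (⋃ t' : Set.Iio t, (f t'.1 t'.2).full).Countable := by
          have : Countable (Set.Iio t) := (Om1.ctbl t).to_subtype
          exact Set.countable_iUnion fun t' => Cond.full_countable _
        obtain ⟨p, hp, hp2⟩ := H _ (card_ctbl_le hc)
        refine ⟨p, hp, fun t' ht y hy hcon => hp2 y hy ?_⟩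
        exact Set.mem_iUnion.2 ⟨⟨t', ht⟩, hcon⟩
      choose F hF1 hF2 using ex
      let U : W → Cond r R := WellFounded.fix wf F
      have hU : ∀ t, U t = F t (fun t' _ => U t') := fun t => WellFounded.fix_eq _ _ _
      have hUS : ∀ t, U t ∈ S := fun t => by rw [hU]; exact hF1 _ _
      have hUd : ∀ t, ∀ t' < t, ∀ y ∈ (U t).h \ s, y.1 ∉ (U t').full := by
        intro t t' ht y hy
        rw [hU t] at hy
        exact hF2 t (fun t' _ => U t') t' ht y hy
      have hZ : #(⋃ t, (U t).full) ≤ aleph 1 :=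
        card_iUnion_le _ Om1.card.le fun t => card_ctbl_le (Cond.full_countable _)
      obtain ⟨q, hq, hq2⟩ := H _ hZ
      -- choose t such that new domain avoids q.full
      have hbad : {t | ∃ y ∈ (U t).h \ s, y.1 ∈ q.full}.Countable := by
        have hch : ∀ t : {t | ∃ y ∈ (U t).h \ s, y.1 ∈ q.full}, ∃ y, y ∈ (U t.1).h \ s ∧
            y.1 ∈ q.full := fun t => t.2
        choose y hy1 hy2 using hch
        have hinj : Function.Injective (fun t : {t | ∃ y ∈ (U t).h \ s, y.1 ∈ q.full} =>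
            (⟨(y t).1, hy2 t⟩ : q.full)) := by
          intro t t' he
          have he' : (y t).1 = (y t').1 := congrArg Subtype.val he
          by_contra hne
          have hne' : t.1 ≠ t'.1 := fun h => hne (Subtype.ext h)
          rcases lt_or_gt_of_ne hne' with hlt | hlt
          · refine hUd t'.1 t.1 hlt (y t') (hy1 t') (Or.inl ⟨(y t).2, ?_⟩)
            rw [← he']
            exact (Finset.mem_sdiff.1 (hy1 t)).1
          · refine hUd t.1 t'.1 hlt (y t) (hy1 t) (Or.inl ⟨(y t').2, ?_⟩)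
            rw [he']
            exact (Finset.mem_sdiff.1 (hy1 t')).1
        have : Countable q.full := (Cond.full_countable q).to_subtype
        exact hinj.countable.to_set
      obtain ⟨t, ht⟩ : ∃ t, t ∉ {t | ∃ y ∈ (U t).h \ s, y.1 ∈ q.full} := by
        by_contra hcon
        push Not at hcon
        exact Om1.not_countable_univ (hbad.mono fun t _ => hcon t)
      have ht' : ∀ y ∈ (U t).h, y ∉ s → y.1 ∉ q.full := fun y hy hys hcon =>
        ht ⟨y, Finset.mem_sdiff.2 ⟨hy, hys⟩, hcon⟩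
      have hq3 : ∀ y ∈ q.h, y ∉ s → y.1 ∉ (U t).full := fun y hy hys hcon =>
        hq2 y (Finset.mem_sdiff.2 ⟨hy, hys⟩) (Set.mem_iUnion.2 ⟨t, hcon⟩)
      have hUt := hUS t
      obtain ⟨hUY, hUB, hUs, hUc⟩ := hUt
      obtain ⟨hqY, hqB, hqs, hqc⟩ := hq
      have hne : U t ≠ q := by
        intro he
        have hpos : 0 < ((U t).h \ s).card := by omega
        obtain ⟨y, hy⟩ := Finset.card_pos.1 hpos
        rw [Finset.mem_sdiff] at hy
        refine ht' y hy.1 hy.2 (Or.inl ⟨y.2, ?_⟩)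
        rw [← he]
        exact hy.1
      obtain ⟨z, h1, h2, -⟩ := Cond.union (U t) q (hu1 _ _ hUB hqB)
        (fun x v w hv hw => by
          by_cases hvs : (x, v) ∈ s
          · exact q.hh x v w (hqs hvs) hw
          · exact absurd (Or.inl ⟨w, hw⟩) (ht' (x, v) hv hvs))
        (fun a ha y hy hya => by
          by_cases hys : y ∈ s
          · exact (U t).hAh a ha y (hUs hys) hya
          · exact absurd (Or.inr (Set.mem_biUnion ha hya)) (hq3 y hy hys))
        (fun a ha y hy hya => by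
          by_cases hys : y ∈ s
          · exact q.hAh a ha y (hqs hys) hya
          · exact absurd (Or.inr (Set.mem_biUnion ha hya)) (ht' y hy hys))
      exact hY _ hUY _ hqY hne ⟨z, h1, h2⟩

theorem cond_cc : CCaleph2 (Cond r R) := by
  classical
  intro Y hY
  have hcov : Y ⊆ ⋃ i : Finset (W × W × W) × ℕ,
      {p : Cond r R | p ∈ Y ∧ p.B = i.1 ∧ ∅ ⊆ p.h ∧ (p.h \ ∅).card = i.2} := by
    intro p hp
    exact Set.mem_iUnion.2 ⟨(p.B, (p.h \ ∅).card), hp, rfl, Finset.empty_subset _, rfl⟩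
  refine (Cardinal.mk_le_mk_of_subset hcov).trans (card_iUnion_le _ ?_ fun i => cc_aux Y hY _ _ _)
  have hinf : Infinite (W × W × W) := by
    have hW : Infinite W := by
      rw [Cardinal.infinite_iff, Om1.card]
      exact Cardinal.aleph0_le_aleph 1
    obtain ⟨w⟩ := Om1.exists_gt_nonempty (W := W)
    exact Infinite.of_injective (fun x : W => (x, w, w)) fun x y h => congrArg Prod.fst h
  have h3 : #(W × W × W) = aleph 1 := by
    simp only [Cardinal.mk_prod, Cardinal.lift_id, Om1.card]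
    rw [Cardinal.mul_eq_self (Cardinal.aleph0_le_aleph 1),
      Cardinal.mul_eq_self (Cardinal.aleph0_le_aleph 1)]
  rw [Cardinal.mk_prod, Cardinal.lift_id, Cardinal.lift_id, Cardinal.mk_finset_of_infinite, h3,
    Cardinal.mk_nat]
  exact (mul_le_mul' le_rfl (Cardinal.aleph0_le_aleph 1)).trans
    (Cardinal.mul_eq_self (Cardinal.aleph0_le_aleph 1)).le

end

end Pool.Agent.FA2
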