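import Mathlib
import Pool.Agent.FA2.Defs

namespace Pool.Agent.FA2

open Cardinal Set

/-- finitary operations on sets, with countable values on countable sets -/
structure GoodOp {X α : Type} (S : Set X → Set α) : Prop where
  mono : ∀ M N, M ⊆ N → S M ⊆ S N
  ctbl : ∀ M, M.Countable → (S M).Countable
  cont : ∀ M : ℕ → Set X, (∀ n, M n ⊆ M (n + 1)) → S (⋃ n, M n) ⊆ ⋃ n, S (M n)

section

variable {X α β : Type}

theorem mono_of_step {M : ℕ → Set X} (h : ∀ n, M n ⊆ M (n + 1)) {m n : ℕ} (hmn : m ≤ n) :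
    M m ⊆ M n :=
  monotone_nat_of_le_succ h hmn

theorem GoodOp.preimage (f : α → X) (hf : Function.Injective f) :
    GoodOp (fun M : Set X => f ⁻¹' M) where
  mono _ _ h _ hx := h hx
  ctbl M hM := hM.preimage_of_injOn hf.injOn
  cont M _ x hx := by
    obtain ⟨n, hn⟩ := Set.mem_iUnion.1 hx
    exact Set.mem_iUnion.2 ⟨n, hn⟩

theorem GoodOp.prod {S : Set X → Set α} {T : Set X → Set β} (hS : GoodOp S) (hT : GoodOp T) :
    GoodOp (fun M => S M ×ˢ T M) where
  mono M N h x hx := ⟨hS.mono M N h hx.1, hT.mono M N h hx.2⟩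
  ctbl M hM := (hS.ctbl M hM).prod (hT.ctbl M hM)
  cont M hM x hx := by
    obtain ⟨m, hm⟩ := Set.mem_iUnion.1 (hS.cont M hM hx.1)
    obtain ⟨n, hn⟩ := Set.mem_iUnion.1 (hT.cont M hM hx.2)
    refine Set.mem_iUnion.2 ⟨max m n, ?_, ?_⟩
    · exact hS.mono _ _ (mono_of_step hM (le_max_left _ _)) hm
    · exact hT.mono _ _ (mono_of_step hM (le_max_right _ _)) hn

theorem GoodOp.finset {S : Set X → Set α} (hS : GoodOp S) :
    GoodOp (fun M => {s : Finset α | (s : Set α) ⊆ S M}) where
  mono M N h s hs := fun x hx => hS.mono M N h (hs hx)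
  ctbl M hM := by
    have h1 := Set.countable_ofPred_finite_subset (hS.ctbl M hM)
    have h2 := h1.preimage_of_injOn (f := fun s : Finset α => (s : Set α))
      (Finset.coe_injective.injOn)
    refine h2.mono ?_
    intro s hs
    exact ⟨s.finite_toSet, hs⟩
  cont M hM s hs := by
    classical
    have key : ∀ t : Finset α, (t : Set α) ⊆ S (⋃ n, M n) → ∃ n, (t : Set α) ⊆ S (M n) := by
      intro t
      induction t using Finset.induction_on with
      | empty =>
        intro _
        exact ⟨0, by simp⟩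
      | insert a t _ ih =>
        intro h
        obtain ⟨n, hn⟩ := ih fun x hx => h (by simp [Finset.mem_coe.1 hx])
        obtain ⟨m, hm⟩ := Set.mem_iUnion.1 (hS.cont M hM (h (by simp : a ∈ ((insert a t : Finset α) : Set α))))
        refine ⟨max m n, ?_⟩
        intro x hx
        rcases Finset.mem_insert.1 (Finset.mem_coe.1 hx) with rfl | hx
        · exact hS.mono _ _ (mono_of_step hM (le_max_left _ _)) hm
        · exact hS.mono _ _ (mono_of_step hM (le_max_right _ _)) (hn hx)
    obtain ⟨n, hn⟩ := key s hs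
    exact Set.mem_iUnion.2 ⟨n, hn⟩

theorem GoodOp.bind {S : Set X → Set α} (hS : GoodOp S) (F : α → Set β)
    (hF : ∀ a, (F a).Countable) : GoodOp (fun M => ⋃ a ∈ S M, F a) where
  mono M N h x hx := by
    obtain ⟨a, ha, hx⟩ := Set.mem_iUnion₂.1 hx
    exact Set.mem_iUnion₂.2 ⟨a, hS.mono M N h ha, hx⟩
  ctbl M hM := (hS.ctbl M hM).biUnion fun a _ => hF a
  cont M hM x hx := by
    obtain ⟨a, ha, hx⟩ := Set.mem_iUnion₂.1 hx
    obtain ⟨n, hn⟩ := Set.mem_iUnion.1 (hS.cont M hM ha)
    exact Set.mem_iUnion.2 ⟨n, Set.mem_iUnion₂.2 ⟨a, hn, hx⟩⟩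

theorem GoodOp.union {S T : Set X → Set α} (hS : GoodOp S) (hT : GoodOp T) :
    GoodOp (fun M => S M ∪ T M) where
  mono M N h := Set.union_subset_union (hS.mono M N h) (hT.mono M N h)
  ctbl M hM := (hS.ctbl M hM).union (hT.ctbl M hM)
  cont M hM x hx := by
    rcases hx with hx | hx
    · obtain ⟨n, hn⟩ := Set.mem_iUnion.1 (hS.cont M hM hx)
      exact Set.mem_iUnion.2 ⟨n, Or.inl hn⟩
    · obtain ⟨n, hn⟩ := Set.mem_iUnion.1 (hT.cont M hM hx)
      exact Set.mem_iUnion.2 ⟨n, Or.inr hn⟩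

theorem GoodOp.const (s : Set α) (hs : s.Countable) : GoodOp (fun _ : Set X => s) where
  mono _ _ _ := subset_rfl
  ctbl _ _ := hs
  cont _ _ _ hx := Set.mem_iUnion.2 ⟨0, hx⟩

theorem GoodOp.club {T : Set X → Set X} (hT : GoodOp T) :
    IsClubCtbl {M : Set X | M.Countable ∧ T M ⊆ M} where
  ctbl M hM := hM.1
  cofinal s hs := by
    let N : ℕ → Set X := fun n => Nat.rec s (fun _ M => M ∪ T M) n
    have h0 : N 0 = s := rfl
    have h1 : ∀ n, N (n + 1) = N n ∪ T (N n) := fun n => rfl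
    have hc : ∀ n, (N n).Countable := by
      intro n
      induction n with
      | zero => rw [h0]; exact hs
      | succ n ih => rw [h1]; exact ih.union (hT.ctbl _ ih)
    refine ⟨⋃ n, N n, ⟨Set.countable_iUnion hc, ?_⟩, ?_⟩
    · refine (hT.cont N fun n => by rw [h1]; exact Set.subset_union_left).trans ?_
      refine Set.iUnion_subset fun n => ?_
      refine Set.Subset.trans ?_ (Set.subset_iUnion N (n + 1))
      rw [h1]
      exact Set.subset_union_right
    · exact (h0 ▸ Set.subset_iUnion N 0 : s ⊆ ⋃ n, N n)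
  chain M hM hmono := by
    refine ⟨Set.countable_iUnion fun n => (hM n).1, ?_⟩
    refine (hT.cont M hmono).trans ?_
    exact Set.iUnion_mono fun n => (hM n).2

end

end Pool.Agent.FA2
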