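import Mathlib
import Pool.Agent.FA2.Defs

namespace Pool.Agent.FA2

open Cardinal Set

/-- Finite approximations to a 0-1 sequence. -/
structure Coh where
  s : Finset (ℕ × Bool)
  hs : ∀ n a b, (n, a) ∈ s → (n, b) ∈ s → a = b

theorem Coh.ext' {p q : Coh} (h : p.s = q.s) : p = q := by
  cases p
  cases q
  simp only at h
  subst h
  rfl

instance : PartialOrder Coh where
  le p q := q.s ⊆ p.s
  le_refl p := Finset.Subset.refl _
  le_trans p q s h1 h2 := h2.trans h1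
  le_antisymm p q h1 h2 := Coh.ext' (Finset.Subset.antisymm h2 h1)

instance : Nonempty Coh := ⟨⟨∅, by simp⟩⟩

instance : Countable Coh :=
  Function.Injective.countable (f := Coh.s) fun _ _ h => Coh.ext' h

theorem coh_cc : CCaleph2 Coh := by
  intro A _
  exact (Cardinal.mk_le_aleph0_iff.2 inferInstance).trans (Cardinal.aleph0_le_aleph 1)

theorem coh_proper : ProperPoset Coh := by
  intro X i j _ _
  refine ⟨{M | M.Countable ∧ Set.range i ⊆ M}, ⟨fun M hM => hM.1, ?_, ?_⟩, ?_⟩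
  · intro s hs
    exact ⟨s ∪ Set.range i, ⟨hs.union (Set.countable_range i), Set.subset_union_right⟩,
      Set.subset_union_left⟩
  · intro M hM _
    exact ⟨Set.countable_iUnion fun n => (hM n).1, (hM 0).2.trans (Set.subset_iUnion M 0)⟩
  · intro M hM p _
    refine ⟨p, le_rfl, ?_⟩
    intro D hD _ r _
    obtain ⟨d, hd, hdr⟩ := hD r
    exact ⟨d, hd, hM.2 ⟨d, rfl⟩, d, hdr, le_rfl⟩

theorem Coh.extend (p : Coh) (n : ℕ) (b : Bool) (h : ∀ a, (n, a) ∉ p.s) :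
    ∃ q ≤ p, (n, b) ∈ q.s := by
  classical
  refine ⟨⟨insert (n, b) p.s, ?_⟩, Finset.subset_insert _ _, Finset.mem_insert_self _ _⟩
  intro m a a' ha ha'
  rcases Finset.mem_insert.1 ha with ha | ha <;> rcases Finset.mem_insert.1 ha' with ha' | ha'
  · exact (Prod.mk.inj ha).2.trans (Prod.mk.inj ha').2.symm
  · rw [(Prod.mk.inj ha).1] at ha'
    exact absurd ha' (h _)
  · rw [(Prod.mk.inj ha').1] at ha
    exact absurd ha (h _)
  · exact p.hs m a a' ha ha'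

theorem coh_dense1 (n : ℕ) : DenseIn {p : Coh | ∃ b, (n, b) ∈ p.s} := by
  intro p
  by_cases h : ∃ b, (n, b) ∈ p.s
  · exact ⟨p, h, le_rfl⟩
  · push Not at h
    obtain ⟨q, hq, hq2⟩ := p.extend n true h
    exact ⟨q, ⟨true, hq2⟩, hq⟩

theorem coh_dense2 (x : ℕ → Bool) : DenseIn {p : Coh | ∃ n, (n, ! x n) ∈ p.s} := by
  classical
  intro p
  obtain ⟨n, hn⟩ : ∃ n, n ∉ p.s.image Prod.fst := Infinite.exists_notMem_finset _
  obtain ⟨q, hq, hq2⟩ := p.extend n (! x n) (fun a ha => hn (Finset.mem_image.2 ⟨_, ha, rfl⟩))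
  exact ⟨q, ⟨n, hq2⟩, hq⟩

theorem coh_fa (h : FAaleph2 Coh) : aleph 2 ≤ #(ℕ → Bool) := by
  classical
  by_contra hcon
  rw [not_le] at hcon
  let F : Set (Set Coh) := Set.range (fun n : ℕ => {p : Coh | ∃ b, (n, b) ∈ p.s}) ∪
    Set.range (fun x : ℕ → Bool => {p : Coh | ∃ n, (n, ! x n) ∈ p.s})
  have hF : #F ≤ aleph 2 := by
    have h1 : #(Set.range (fun n : ℕ => {p : Coh | ∃ b, (n, b) ∈ p.s})) ≤ aleph 2 :=
      Cardinal.mk_range_le.trans ((Cardinal.mk_nat).le.trans (Cardinal.aleph0_le_aleph 2))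
    have h2 : #(Set.range (fun x : ℕ → Bool => {p : Coh | ∃ n, (n, ! x n) ∈ p.s})) ≤ aleph 2 :=
      Cardinal.mk_range_le.trans hcon.le
    exact (Cardinal.mk_union_le _ _).trans ((add_le_add h1 h2).trans
      (Cardinal.add_eq_self (Cardinal.aleph0_le_aleph 2)).le)
  obtain ⟨G, hG, hGF⟩ := h F hF (by
    rintro D (⟨n, rfl⟩ | ⟨x, rfl⟩)
    · exact coh_dense1 n
    · exact coh_dense2 x)
  have h1 : ∀ n : ℕ, ∃ b, ∃ p ∈ G, (n, b) ∈ p.s := by
    intro n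
    obtain ⟨p, hp, b, hb⟩ := hGF _ (Or.inl ⟨n, rfl⟩)
    exact ⟨b, p, hp, hb⟩
  choose x hx using h1
  obtain ⟨p, hp, n, hn⟩ := hGF _ (Or.inr ⟨x, rfl⟩)
  obtain ⟨q, hq, hq2⟩ := hx n
  obtain ⟨s, -, h3, h4⟩ := hG.directed p hp q hq
  have := s.hs n _ _ (h3 hn) (h4 hq2)
  simp at this

end Pool.Agent.FA2
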