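import Mathlib
import Pool.Agent.FA2.Om1

namespace Pool.Agent.FA2

open Cardinal Set

theorem om1_of_aleph1 : Om1 (aleph.{0} 1).ord.ToType := by
  have hc : ∀ x : (aleph.{0} 1).ord.ToType, (Set.Iio x).Countable := by
    intro x
    have h := Cardinal.mk_Iio_toType_ord_lt x
    have h' := lt_of_lt_of_eq h Cardinal.succ_aleph0.symm
    exact (Cardinal.mk_le_aleph0_iff.1 (Order.lt_succ_iff.1 h')).to_set
  refine ⟨hc, ?_, Cardinal.mk_ord_toType _⟩
  intro s hs
  have h1 : (⋃ x ∈ s, Set.Iic x).Countable := by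
    refine hs.biUnion fun x _ => ?_
    have h : Set.Iic x = Set.Iio x ∪ {x} := by
      ext y
      simp [le_iff_lt_or_eq]
    rw [h]
    exact (hc x).union (Set.countable_singleton x)
  have h2 : ¬ (Set.univ : Set (aleph.{0} 1).ord.ToType).Countable := by
    intro hcon
    have h3 : Countable (aleph.{0} 1).ord.ToType := Set.countable_univ_iff.1 hcon
    have h4 := Cardinal.mk_le_aleph0_iff.2 h3
    rw [Cardinal.mk_ord_toType, ← Cardinal.succ_aleph0] at h4
    exact absurd (Order.lt_succ (ℵ₀ : Cardinal.{0})) (not_lt.2 h4)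
  obtain ⟨y, hy⟩ : ∃ y, y ∉ ⋃ x ∈ s, Set.Iic x := by
    by_contra hcon
    push Not at hcon
    exact h2 (h1.mono fun y _ => hcon y)
  refine ⟨y, fun x hx => ?_⟩
  by_contra hcon
  exact hy (Set.mem_biUnion hx (not_lt.1 hcon))

section

variable {W : Type} [LinearOrder W] [WellFoundedLT W] [Om1 W]

/-- two functions are eventually different -/
def EvD (g g' : W → W) : Prop := ∃ b, ∀ δ, b < δ → g δ ≠ g' δ

omit [WellFoundedLT W] [Om1 W] in
theorem EvD.symm {g g' : W → W} (h : EvD g g') : EvD g' g := by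
  obtain ⟨b, hb⟩ := h
  exact ⟨b, fun δ hδ => (hb δ hδ).symm⟩

theorem exists_evd_family :
    ∃ S : Set (W → W), (∀ g ∈ S, ∀ g' ∈ S, g ≠ g' → EvD g g') ∧ aleph 2 ≤ #S := by
  classical
  obtain ⟨S, hS⟩ := zorn_subset {S : Set (W → W) | ∀ g ∈ S, ∀ g' ∈ S, g ≠ g' → EvD g g'} (by
    intro c hc hchain
    refine ⟨⋃₀ c, ?_, fun s hs => Set.subset_sUnion_of_mem hs⟩
    rintro g ⟨s, hs, hgs⟩ g' ⟨s', hs', hgs'⟩ hne
    rcases hchain.total hs hs' with h | h
    · exact hc hs' g (h hgs) g' hgs' hne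
    · exact hc hs g hgs g' (h hgs') hne)
  refine ⟨S, hS.prop, ?_⟩
  by_contra hcon
  rw [not_le] at hcon
  have h2 : (aleph 2 : Cardinal.{0}) = Order.succ (aleph 1) := by
    rw [Cardinal.succ_aleph]
    congr 1
    exact one_add_one_eq_two.symm
  rw [h2, Order.lt_succ_iff, ← Om1.card (W := W)] at hcon
  obtain ⟨e⟩ := Cardinal.le_def _ _ |>.1 hcon
  -- diagonalise
  have hy : ∀ δ : W, ∃ y, ∀ g : S, e g < δ → g.1 δ < y := by
    intro δ
    have hc : ((fun g : S => g.1 δ) '' {g : S | e g < δ}).Countable := by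
      refine Set.Countable.image ?_ _
      exact ((Om1.ctbl δ).preimage_of_injOn (e.injective.injOn))
    obtain ⟨y, hy⟩ := Om1.bdd _ hc
    exact ⟨y, fun g hg => hy _ ⟨g, hg, rfl⟩⟩
  choose G hG using hy
  have hev : ∀ g ∈ S, EvD g G := fun g hg =>
    ⟨e ⟨g, hg⟩, fun δ hδ => (hG δ ⟨g, hg⟩ hδ).ne⟩
  have hGS : G ∉ S := by
    intro hcon
    obtain ⟨δ, hδ⟩ := Om1.exists_gt (e ⟨G, hcon⟩)
    exact lt_irrefl _ (hG δ ⟨G, hcon⟩ hδ)
  have hins : insert G S ∈ {S : Set (W → W) | ∀ g ∈ S, ∀ g' ∈ S, g ≠ g' → EvD g g'} := by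
    intro g hg g' hg' hne
    rcases Set.mem_insert_iff.1 hg with h1 | h1 <;> rcases Set.mem_insert_iff.1 hg' with h2 | h2
    · exact absurd (h1.trans h2.symm) hne
    · rw [h1]
      exact (hev g' h2).symm
    · rw [h2]
      exact hev g h1
    · exact hS.prop g h1 g' h2 hne
  exact hGS (hS.2 hins (Set.subset_insert G S) (Set.mem_insert G S))

end

end Pool.Agent.FA2
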