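import Mathlib
import Pool.Agent.FA2.Choice

namespace Pool.Agent.FA2

open Cardinal Set

section

variable {W K : Type} [LinearOrder W] [WellFoundedLT W] [Om1 W]
  {r : K × W → K × W → Prop} [IsWellOrder (K × W) r] {R : K → W → Set W}

omit [WellFoundedLT W] [Om1 W] in
theorem exists_bound_lt {δ : W} (hδ : ∃ z, z < δ) (B : Finset (W × W × W))
    (hB : ∀ b ∈ B, b.2.1 < δ) : ∃ e < δ, ∀ b ∈ B, b.2.1 ≤ e := by
  classical
  induction B using Finset.induction_on with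
  | empty =>
    obtain ⟨z, hz⟩ := hδ
    exact ⟨z, hz, by simp⟩
  | insert b B _ ih =>
    obtain ⟨e, he, h⟩ := ih fun b hb => hB b (Finset.mem_insert_of_mem hb)
    refine ⟨max e b.2.1, max_lt he (hB b (Finset.mem_insert_self _ _)), ?_⟩
    intro b' hb'
    rcases Finset.mem_insert.1 hb' with rfl | hb'
    · exact le_max_right _ _
    · exact (h b' hb').trans (le_max_left _ _)

open Classical in
theorem generic_core
    (Z : Set (Cond r R) → Finset (W × W × W) → Finset ((K × W) × W) → ℕ → Set (K × W))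
    (U : Set (Cond r R) → Finset (W × W × W) → Finset ((K × W) × W) → ℕ → W → Cond r R)
    (θ : Set (Cond r R) → Finset (W × W × W) → Finset ((K × W) × W) → ℕ → ℕ → W → W)
    (hch : ∀ D B h n,
      (∀ d ∈ Ext D B h n, ∃ y ∈ d.h \ h, y.1 ∈ Z D B h n) ∨
      ((∀ t, U D B h n t ∈ Ext D B h n) ∧
      ∀ m ε, ∀ A : List (Set (K × W)), A.length = m → (∀ a ∈ A, Small r ε a) →
        ∃ i < θ D B h n m ε, ∀ a ∈ A, ∀ y ∈ (U D B h n i).h \ h, y.1 ∉ a))
    (δ : W) (hδ : ∃ z, z < δ) (MJ : Set (K × W)) (hMJ : MJ.Countable) (MP : Set (Cond r R))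
    (MD : Set (Set (Cond r R)))
    (g2 : ∀ p ∈ MP, (∀ b ∈ p.B, b.1 < δ ∧ b.2.1 < δ ∧ b.2.2 < δ) ∧
      (∀ y ∈ p.h, y.1 ∈ MJ ∧ y.2 < δ) ∧ (∀ a ∈ p.A, ∀ x ∈ a.2, x ∈ MJ))
    (g4 : ∀ D ∈ MD, ∀ B h, (∀ b ∈ B, b.1 < δ ∧ b.2.1 < δ ∧ b.2.2 < δ) →
      (∀ y ∈ h, y.1 ∈ MJ ∧ y.2 < δ) → ∀ n t, t < δ → U D B h n t ∈ MP ∧
        (∀ m, θ D B h n m t < δ) ∧ ∀ z ∈ Z D B h n, z ∈ MJ)
    (η : W) (hη : ∀ x ∈ MJ, η ∈ R x.1 δ) (p : Cond r R) (hp : p ∈ MP) :
    ∃ q ≤ p, ∀ D ∈ MD, DenseIn D → ∀ s ≤ q, ∃ d ∈ D, d ∈ MP ∧ Compat s d := by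
  obtain ⟨ε', hε'⟩ := exists_small (W := W) r MJ hMJ
  obtain ⟨gp1, gp2, gp3⟩ := g2 p hp
  set ε : W := max (max ε' δ) η with hε
  have hε1 : ε' ≤ ε := (le_max_left _ _).trans (le_max_left _ _)
  have hε2 : δ ≤ ε := (le_max_right _ _).trans (le_max_left _ _)
  have hε3 : η ≤ ε := le_max_right _ _
  let q : Cond r R :=
    { B := insert (δ, ε, η) p.B
      h := p.h
      A := insert (δ, MJ) p.A
      hB1 := by
        intro b hb
        rcases Finset.mem_insert.1 hb with rfl | hb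
        · exact ⟨hδ, hε2, hε3⟩
        · exact p.hB1 b hb
      hB2 := by
        intro b hb b' hb' hlt
        rcases Finset.mem_insert.1 hb with rfl | hb <;>
          rcases Finset.mem_insert.1 hb' with rfl | hb'
        · exact absurd hlt (lt_irrefl _)
        · exact absurd hlt (not_lt.2 (gp1 b' hb').1.le)
        · exact (gp1 b hb).2.1
        · exact p.hB2 b hb b' hb' hlt
      hB3 := by
        intro b hb b' hb' he
        rcases Finset.mem_insert.1 hb with rfl | hb <;>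
          rcases Finset.mem_insert.1 hb' with rfl | hb'
        · rfl
        · exact absurd he (gp1 b' hb').1.ne'
        · exact absurd he (gp1 b hb).1.ne
        · exact p.hB3 b hb b' hb' he
      hh := p.hh
      hA := by
        intro a ha
        rcases Finset.mem_insert.1 ha with rfl | ha
        · exact ⟨hMJ, (δ, ε, η), Finset.mem_insert_self _ _, rfl, hε'.mono hε1, hη⟩
        · obtain ⟨h1, b, hb, h2⟩ := p.hA a ha
          exact ⟨h1, b, Finset.mem_insert_of_mem hb, h2⟩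
      hAh := by
        intro a ha y hy hya
        rcases Finset.mem_insert.1 ha with rfl | ha
        · exact (gp2 y hy).2
        · exact p.hAh a ha y hy hya }
  refine ⟨q, ⟨Finset.subset_insert _ _, Finset.Subset.refl _, Finset.subset_insert _ _⟩, ?_⟩
  intro D hD hdense s₀ hs₀
  obtain ⟨s, hsD, hss⟩ := hdense s₀
  suffices h : ∃ d ∈ D, d ∈ MP ∧ Compat s d by
    obtain ⟨d, h1, h2, t, h3, h4⟩ := h
    exact ⟨d, h1, h2, t, h3.trans hss, h4⟩
  have hsq : s ≤ q := hss.trans hs₀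
  have hsB : (δ, ε, η) ∈ s.B := hsq.1 (Finset.mem_insert_self _ _)
  have hsA : (δ, MJ) ∈ s.A := hsq.2.2 (Finset.mem_insert_self _ _)
  set B0 := s.B.filter (fun b => b.1 < δ) with hB0
  set h0 := s.h.filter (fun y => y.1 ∈ MJ) with hh0
  have fB : ∀ b ∈ B0, b.1 < δ ∧ b.2.1 < δ ∧ b.2.2 < δ := by
    intro b hb
    obtain ⟨hb1, hb2⟩ := Finset.mem_filter.1 hb
    have h1 : b.2.1 < δ := s.hB2 b hb1 _ hsB hb2
    exact ⟨hb2, h1, ((s.hB1 b hb1).2.2).trans_lt h1⟩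
  have fh : ∀ y ∈ h0, y.1 ∈ MJ ∧ y.2 < δ := by
    intro y hy
    obtain ⟨hy1, hy2⟩ := Finset.mem_filter.1 hy
    exact ⟨hy2, s.hAh _ hsA y hy1 hy2⟩
  have hsExt : s ∈ Ext D B0 h0 (s.h \ h0).card :=
    ⟨hsD, Finset.filter_subset _ _, Finset.filter_subset _ _, rfl⟩
  obtain ⟨z0, hz0⟩ := hδ
  rcases hch D B0 h0 (s.h \ h0).card with H | ⟨H1, H2⟩
  · exfalso
    obtain ⟨y, hy, hyZ⟩ := H s hsExt
    rw [Finset.mem_sdiff] at hy
    have hyM : y.1 ∈ MJ := (g4 D hD B0 h0 fB fh _ z0 hz0).2.2 _ hyZ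
    exact hy.2 (Finset.mem_filter.2 ⟨hy.1, hyM⟩)
  · obtain ⟨e, he, hbe⟩ := exists_bound_lt ⟨z0, hz0⟩ B0 fun b hb => (fB b hb).2.1
    set A : List (Set (K × W)) := ((s.A.filter (fun a => a.1 < δ)).toList).map Prod.snd with hA
    have hAsm : ∀ a ∈ A, Small r e a := by
      intro a ha
      obtain ⟨a', ha', rfl⟩ := List.mem_map.1 ha
      obtain ⟨ha1, ha2⟩ := Finset.mem_filter.1 (Finset.mem_toList.1 ha')
      obtain ⟨-, b, hb, hb1, hb2, -⟩ := s.hA a' ha1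
      exact hb2.mono (hbe b (Finset.mem_filter.2 ⟨hb, by rw [hb1]; exact ha2⟩))
    obtain ⟨i, hi, hav⟩ := H2 A.length e A rfl hAsm
    have hiδ : i < δ := hi.trans ((g4 D hD B0 h0 fB fh _ e he).2.1 _)
    have hdM := (g4 D hD B0 h0 fB fh (s.h \ h0).card i hiδ).1
    obtain ⟨hdD, hdB, hdh, -⟩ := H1 i
    set d := U D B0 h0 (s.h \ h0).card i with hd
    obtain ⟨gd1, gd2, gd3⟩ := g2 d hdM
    refine ⟨d, hdD, hdM, ?_⟩
    obtain ⟨t, ht1, ht2, -⟩ := Cond.union s d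
      (by
        intro b hb b' hb'
        by_cases hlt : b.1 < δ
        · have hb0 : b ∈ d.B := hdB (Finset.mem_filter.2 ⟨hb, hlt⟩)
          exact ⟨d.hB2 b hb0 b' hb', d.hB2 b' hb' b hb0, d.hB3 b hb0 b' hb'⟩
        · push Not at hlt
          have h1 := gd1 b' hb'
          refine ⟨fun h => ?_, fun _ => h1.2.1.trans_le hlt, fun h => ?_⟩
          · exact absurd (h.trans h1.1) (not_lt.2 hlt)
          · exact absurd (h ▸ h1.1) (not_lt.2 hlt))
      (by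
        intro x v w hv hw
        have hx : x ∈ MJ := (gd2 _ hw).1
        exact d.hh x v w (hdh (Finset.mem_filter.2 ⟨hv, hx⟩)) hw)
      (by
        intro a ha y hy hya
        by_cases hlt : a.1 < δ
        · by_cases hy0 : y ∈ h0
          · exact s.hAh a ha y (Finset.mem_filter.1 hy0).1 hya
          · exfalso
            refine hav a.2 ?_ y (Finset.mem_sdiff.2 ⟨hy, hy0⟩) hya
            exact List.mem_map.2 ⟨a, Finset.mem_toList.2 (Finset.mem_filter.2 ⟨ha, hlt⟩), rfl⟩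
        · push Not at hlt
          exact (gd2 y hy).2.trans_le hlt)
      (by
        intro a ha y hy hya
        have hyM : y.1 ∈ MJ := gd3 a ha _ hya
        exact d.hAh a ha y (hdh (Finset.mem_filter.2 ⟨hy, hyM⟩)) hya)
    exact ⟨t, ht1, ht2⟩

/-- conditions with only one value of the finite function -/
def single (y : (K × W) × W) : Cond r R where
  B := ∅
  h := {y}
  A := ∅
  hB1 := by simp
  hB2 := by simp
  hB3 := by simp
  hh := by
    intro x v w hv hw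
    rw [Finset.mem_singleton] at hv hw
    exact congrArg Prod.snd (hv.trans hw.symm)
  hA := by simp
  hAh := by simp

omit [WellFoundedLT W] [Om1 W] [IsWellOrder (K × W) r] in
theorem single_inj {y y' : (K × W) × W} (h : (single y : Cond r R) = single y') : y = y' := by
  have h1 : ({y} : Finset ((K × W) × W)) = {y'} := congrArg Cond.h h
  exact Finset.singleton_injective h1

theorem cond_proper (bd : K → K → W) (k0 : K)
    (hR : ∀ (MK : Set K), MK.Countable → ∀ δ : W, (∀ α ∈ MK, ∀ β ∈ MK, bd α β < δ) →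
      ∃ η, ∀ α ∈ MK, η ∈ R α δ) : ProperPoset (Cond r R) := by
  classical
  intro X i j hi hj
  obtain ⟨w0⟩ := Om1.exists_gt_nonempty (W := W)
  obtain ⟨Z, U, θ, hZ, hch⟩ := exists_choice (r := r) (R := R)
  let c1 : W → Cond r R := fun ξ => single ((k0, w0), ξ)
  let cJ : K × W → Cond r R := fun x => single (x, w0)
  have hc1 : Function.Injective (fun ξ => i (c1 ξ)) := fun ξ ξ' h =>
    congrArg Prod.snd (single_inj (hi h))
  have hcJ : Function.Injective (fun x => i (cJ x)) := fun x x' h =>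
    congrArg Prod.fst (single_inj (hi h))
  have G1 : GoodOp (fun M : Set X => (fun ξ => i (c1 ξ)) ⁻¹' M) := GoodOp.preimage _ hc1
  have GJ : GoodOp (fun M : Set X => (fun x => i (cJ x)) ⁻¹' M) := GoodOp.preimage _ hcJ
  have GP : GoodOp (fun M : Set X => i ⁻¹' M) := GoodOp.preimage _ hi
  have GD : GoodOp (fun M : Set X => j ⁻¹' M) := GoodOp.preimage _ hj
  let FA : W → Set X := fun ξ => (fun ξ' => i (c1 ξ')) '' Set.Iio ξ
  let FB : Cond r R → Set X := fun p =>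
    (⋃ b ∈ p.B, {i (c1 b.1), i (c1 b.2.1), i (c1 b.2.2)}) ∪
    (⋃ y ∈ p.h, {i (cJ y.1), i (c1 y.2)}) ∪ (⋃ a ∈ p.A, (fun x => i (cJ x)) '' a.2)
  let FC : (K × W) × (K × W) → Set X := fun x => {i (c1 (bd x.1.1 x.2.1))}
  let FD : Set (Cond r R) × Finset (W × W × W) × Finset ((K × W) × W) × W → Set X := fun x =>
    ⋃ n : ℕ, ({i (U x.1 x.2.1 x.2.2.1 n x.2.2.2)} ∪
      (⋃ m : ℕ, {i (c1 (θ x.1 x.2.1 x.2.2.1 n m x.2.2.2))}) ∪
      (fun z => i (cJ z)) '' Z x.1 x.2.1 x.2.2.1 n)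
  have hFA : ∀ ξ, (FA ξ).Countable := fun ξ => (Om1.ctbl ξ).image _
  have hFB : ∀ p, (FB p).Countable := by
    intro p
    refine Set.Countable.union (Set.Countable.union ?_ ?_) ?_
    · exact p.B.finite_toSet.countable.biUnion fun b _ => (Set.toFinite _).countable
    · exact p.h.finite_toSet.countable.biUnion fun b _ => (Set.toFinite _).countable
    · exact p.A.finite_toSet.countable.biUnion fun a ha => (p.hA a ha).1.image _
  have hFC : ∀ x, (FC x).Countable := fun x => Set.countable_singleton _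
  have hFD : ∀ x, (FD x).Countable := by
    intro x
    refine Set.countable_iUnion fun n => Set.Countable.union (Set.Countable.union ?_ ?_) ?_
    · exact Set.countable_singleton _
    · exact Set.countable_iUnion fun m => Set.countable_singleton _
    · exact (hZ _ _ _ _).image _
  have hT := (((((G1.bind FA hFA).union (GP.bind FB hFB)).union
    ((GJ.prod GJ).bind FC hFC)).union
    ((GD.prod ((G1.prod (G1.prod G1)).finset.prod ((GJ.prod G1).finset.prod G1))).bind FD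
      hFD)).union (GoodOp.const (X := X) {i (c1 w0)} (Set.countable_singleton _)))
  refine ⟨_, hT.club, ?_⟩
  rintro M ⟨hMc, hM⟩ p hp
  have f0 : i (c1 w0) ∈ M := hM (Or.inr rfl)
  have f1 : ∀ ξ, i (c1 ξ) ∈ M → ∀ ξ' < ξ, i (c1 ξ') ∈ M := by
    intro ξ hξ ξ' hlt
    refine hM (Or.inl (Or.inl (Or.inl (Or.inl ?_))))
    exact Set.mem_iUnion₂.2 ⟨ξ, hξ, ⟨ξ', hlt, rfl⟩⟩
  have f2 : ∀ p, i p ∈ M → FB p ⊆ M := by
    intro p hp x hx
    refine hM (Or.inl (Or.inl (Or.inl (Or.inr ?_))))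
    exact Set.mem_iUnion₂.2 ⟨p, hp, hx⟩
  have f3 : ∀ x y, i (cJ x) ∈ M → i (cJ y) ∈ M → i (c1 (bd x.1 y.1)) ∈ M := by
    intro x y hx hy
    refine hM (Or.inl (Or.inl (Or.inr ?_)))
    exact Set.mem_iUnion₂.2 ⟨(x, y), ⟨hx, hy⟩, rfl⟩
  have f4 : ∀ D (B : Finset (W × W × W)) (h : Finset ((K × W) × W)) t, j D ∈ M →
      (∀ b ∈ B, i (c1 b.1) ∈ M ∧ i (c1 b.2.1) ∈ M ∧ i (c1 b.2.2) ∈ M) →
      (∀ y ∈ h, i (cJ y.1) ∈ M ∧ i (c1 y.2) ∈ M) → i (c1 t) ∈ M → FD (D, B, h, t) ⊆ M := by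
    intro D B h t hD hB hh ht x hx
    refine hM (Or.inl (Or.inr ?_))
    refine Set.mem_iUnion₂.2 ⟨(D, B, h, t), ⟨hD, ?_, ?_, ht⟩, hx⟩
    · intro b hb
      exact ⟨(hB b hb).1, (hB b hb).2.1, (hB b hb).2.2⟩
    · intro y hy
      exact ⟨(hh y hy).1, (hh y hy).2⟩
  -- the ordinal δ
  have hS1c : ((fun ξ => i (c1 ξ)) ⁻¹' M).Countable := G1.ctbl M hMc
  obtain ⟨y, hy⟩ := Om1.bdd _ hS1c
  have hne : ({ξ | i (c1 ξ) ∉ M} : Set W).Nonempty := ⟨y, fun h => lt_irrefl y (hy y h)⟩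
  have wf : WellFounded ((· < ·) : W → W → Prop) := wellFounded_lt
  set δ := wf.min _ hne with hδ
  have hδm : i (c1 δ) ∉ M := wf.min_mem _ hne
  have d1 : ∀ ξ, i (c1 ξ) ∈ M ↔ ξ < δ := by
    intro ξ
    constructor
    · intro h
      by_contra hcon
      push Not at hcon
      rcases hcon.lt_or_eq with hlt | heq
      · exact hδm (f1 ξ h δ hlt)
      · exact hδm (heq ▸ h)
    · intro h
      by_contra hcon
      exact wf.not_lt_min _ (show ξ ∈ {ξ | i (c1 ξ) ∉ M} from hcon) h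
  have hMJc : ((fun x => i (cJ x)) ⁻¹' M).Countable := GJ.ctbl M hMc
  obtain ⟨η, hη⟩ := hR (Prod.fst '' ((fun x => i (cJ x)) ⁻¹' M)) (hMJc.image _) δ (by
    rintro _ ⟨x, hx, rfl⟩ _ ⟨x', hx', rfl⟩
    exact (d1 _).1 (f3 x x' hx hx'))
  obtain ⟨q, hq, hq2⟩ := generic_core Z U θ hch δ ⟨w0, (d1 w0).1 f0⟩
    ((fun x => i (cJ x)) ⁻¹' M) hMJc (i ⁻¹' M) (j ⁻¹' M)
    (by
      intro p hp
      have hFBp := f2 p hp
      refine ⟨fun b hb => ⟨?_, ?_, ?_⟩, fun y hy => ⟨?_, ?_⟩, fun a ha x hx => ?_⟩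
      · exact (d1 _).1 (hFBp (Or.inl (Or.inl (Set.mem_iUnion₂.2 ⟨b, hb, by simp⟩))))
      · exact (d1 _).1 (hFBp (Or.inl (Or.inl (Set.mem_iUnion₂.2 ⟨b, hb, by simp⟩))))
      · exact (d1 _).1 (hFBp (Or.inl (Or.inl (Set.mem_iUnion₂.2 ⟨b, hb, by simp⟩))))
      · exact hFBp (Or.inl (Or.inr (Set.mem_iUnion₂.2 ⟨y, hy, by simp⟩)))
      · exact (d1 _).1 (hFBp (Or.inl (Or.inr (Set.mem_iUnion₂.2 ⟨y, hy, by simp⟩))))
      · exact hFBp (Or.inr (Set.mem_iUnion₂.2 ⟨a, ha, ⟨x, hx, rfl⟩⟩)))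
    (by
      intro D hD B h hB hh n t ht
      have hF := f4 D B h t hD
        (fun b hb => ⟨(d1 _).2 (hB b hb).1, (d1 _).2 (hB b hb).2.1, (d1 _).2 (hB b hb).2.2⟩)
        (fun y hy => ⟨(hh y hy).1, (d1 _).2 (hh y hy).2⟩) ((d1 _).2 ht)
      refine ⟨?_, fun m => ?_, fun z hz => ?_⟩
      · exact hF (Set.mem_iUnion.2 ⟨n, Or.inl (Or.inl rfl)⟩)
      · exact (d1 _).1 (hF (Set.mem_iUnion.2 ⟨n, Or.inl (Or.inr (Set.mem_iUnion.2 ⟨m, rfl⟩))⟩))
      · exact hF (Set.mem_iUnion.2 ⟨n, Or.inr ⟨z, hz, rfl⟩⟩))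
    η (fun x hx => hη _ ⟨x, hx, rfl⟩) p hp
  refine ⟨q, hq, ?_⟩
  intro D hdense hD s hs
  exact hq2 D hD hdense s hs

end

end Pool.Agent.FA2
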