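import Mathlib
import Pool.Agent.FA2.Om1
import Pool.Agent.FA2.Avoid
import Pool.Agent.FA2.Defs
import Pool.Agent.FA2.Cond

namespace Pool.Agent.FA2

open Cardinal Set

section

variable {W K : Type} [LinearOrder W] [WellFoundedLT W] [Om1 W]
  {r : K × W → K × W → Prop} {R : K → W → Set W}

theorem exists_bot : ∃ v0 : W, ∀ z, v0 ≤ z := by
  obtain ⟨w⟩ := Om1.exists_gt_nonempty (W := W)
  have wf : WellFounded ((· < ·) : W → W → Prop) := wellFounded_lt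
  refine ⟨wf.min Set.univ ⟨w, trivial⟩, fun z => ?_⟩
  exact not_lt.1 (wf.not_lt_min _ (Set.mem_univ z))

/-- the dense sets -/
def D1 (r : K × W → K × W → Prop) (R : K → W → Set W) (x : K × W) : Set (Cond r R) :=
  {p | ∃ v, (x, v) ∈ p.h}

def D2 (r : K × W → K × W → Prop) (R : K → W → Set W) (ζ : W) : Set (Cond r R) :=
  {p | ∃ b ∈ p.B, ζ < b.1}

def D3 (r : K × W → K × W → Prop) (R : K → W → Set W) (δ : W) : Set (Cond r R) :=
  {p | ∃ b ∈ p.B, b.1 ≤ δ ∧ δ ≤ b.2.1}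

def D4 (r : K × W → K × W → Prop) (R : K → W → Set W) (x : K × W) : Set (Cond r R) :=
  {p | (∃ b ∈ p.B, b.1 < x.2 ∧ x.2 ≤ b.2.1) ∨ (∃ b ∈ p.B, b.1 = x.2 ∧ b.2.2 ∈ R x.1 x.2) ∨
    ∃ i < x.2, ∃ v, x.2 ≤ v ∧ ((x.1, i), v) ∈ p.h}

theorem D1_dense (x : K × W) : DenseIn (D1 r R x) := by
  classical
  intro p
  by_cases hx : ∃ v, (x, v) ∈ p.h
  · exact ⟨p, hx, le_rfl⟩
  · obtain ⟨v0, hv0⟩ := exists_bot (W := W)
    refine ⟨⟨p.B, insert (x, v0) p.h, p.A, p.hB1, p.hB2, p.hB3, ?_, p.hA, ?_⟩, ?_, ?_⟩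
    · intro y v w hv hw
      rcases Finset.mem_insert.1 hv with hv | hv <;> rcases Finset.mem_insert.1 hw with hw | hw
      · exact (Prod.mk.inj hv).2.trans (Prod.mk.inj hw).2.symm
      · rw [(Prod.mk.inj hv).1] at hw
        exact absurd ⟨w, hw⟩ hx
      · rw [(Prod.mk.inj hw).1] at hv
        exact absurd ⟨v, hv⟩ hx
      · exact p.hh y v w hv hw
    · intro a ha y hy hya
      rcases Finset.mem_insert.1 hy with rfl | hy
      · obtain ⟨-, b, hb, h1, -⟩ := p.hA a ha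
        obtain ⟨⟨z, hz⟩, -⟩ := p.hB1 b hb
        rw [← h1]
        exact lt_of_le_of_lt (hv0 z) hz
      · exact p.hAh a ha y hy hya
    · exact ⟨v0, Finset.mem_insert_self _ _⟩
    · exact ⟨Finset.Subset.refl _, Finset.subset_insert _ _, Finset.Subset.refl _⟩

omit [Om1 W] in
theorem addB (p : Cond r R) (δ v0 : W) (hδ : ∃ z, z < δ) (hv0 : v0 ≤ δ)
    (h1 : ∀ b ∈ p.B, ¬ (b.1 ≤ δ ∧ δ ≤ b.2.1)) :
    ∃ q ≤ p, (δ, δ, v0) ∈ q.B := by
  classical
  refine ⟨⟨insert (δ, δ, v0) p.B, p.h, p.A, ?_, ?_, ?_, p.hh, ?_, p.hAh⟩, ?_, ?_⟩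
  · intro b hb
    rcases Finset.mem_insert.1 hb with rfl | hb
    · exact ⟨hδ, le_rfl, hv0⟩
    · exact p.hB1 b hb
  · intro b hb b' hb' hlt
    rcases Finset.mem_insert.1 hb with rfl | hb <;> rcases Finset.mem_insert.1 hb' with rfl | hb'
    · exact hlt
    · exact hlt
    · by_contra hcon
      exact h1 b hb ⟨le_of_lt hlt, not_lt.1 hcon⟩
    · exact p.hB2 b hb b' hb' hlt
  · intro b hb b' hb' he
    rcases Finset.mem_insert.1 hb with rfl | hb <;> rcases Finset.mem_insert.1 hb' with rfl | hb'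
    · rfl
    · have h2 := (p.hB1 b' hb').2.1
      simp only at he
      exact absurd ⟨he.symm.le, by rw [he]; exact h2⟩ (h1 b' hb')
    · have h2 := (p.hB1 b hb).2.1
      simp only at he
      exact absurd ⟨he.le, by rw [← he]; exact h2⟩ (h1 b hb)
    · exact p.hB3 b hb b' hb' he
  · intro a ha
    obtain ⟨h2, b, hb, h3⟩ := p.hA a ha
    exact ⟨h2, b, Finset.mem_insert_of_mem hb, h3⟩
  · exact ⟨Finset.subset_insert _ _, Finset.Subset.refl _, Finset.Subset.refl _⟩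
  · exact Finset.mem_insert_self _ _

theorem D2_dense (ζ : W) : DenseIn (D2 r R ζ) := by
  classical
  intro p
  have hc : ({ζ} ∪ (fun b : W × W × W => b.1) '' (p.B : Set (W × W × W)) ∪
      (fun b : W × W × W => b.2.1) '' (p.B : Set (W × W × W))).Countable :=
    ((Set.countable_singleton ζ).union (p.B.finite_toSet.image _).countable).union
      (p.B.finite_toSet.image _).countable
  obtain ⟨δ, hδ⟩ := Om1.bdd _ hc
  have h0 : ζ < δ := hδ ζ (Or.inl (Or.inl rfl))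
  obtain ⟨q, hq, hq2⟩ := addB p δ ζ ⟨ζ, h0⟩ h0.le (fun b hb hcon =>
    absurd hcon.2 (not_le.2 (hδ _ (Or.inr ⟨b, hb, rfl⟩))))
  exact ⟨q, ⟨_, hq2, h0⟩, hq⟩

omit [Om1 W] in
theorem D3_dense (δ : W) (hδ : ∃ z, z < δ) : DenseIn (D3 r R δ) := by
  classical
  intro p
  by_cases hx : ∃ b ∈ p.B, b.1 ≤ δ ∧ δ ≤ b.2.1
  · exact ⟨p, hx, le_rfl⟩
  · push Not at hx
    obtain ⟨q, hq, hq2⟩ := addB p δ δ hδ le_rfl (fun b hb hcon =>
      absurd (hx b hb hcon.1) (not_lt.2 hcon.2))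
    exact ⟨q, ⟨_, hq2, le_rfl, le_rfl⟩, hq⟩

theorem D4_dense (x : K × W) (ζ : W) (hζ : ∃ z, z < ζ) (hζx : ζ < x.2)
    (θ : ℕ → W → W)
    (hθ : ∀ m ε, ∀ A : List (Set (K × W)), A.length = m → (∀ a ∈ A, Small r ε a) →
      ∃ i < θ m ε, ∀ a ∈ A, (x.1, i) ∉ a)
    (hcl : ∀ m, ∀ ε < x.2, θ m ε < x.2) (hr : ∀ y, ¬ r y y) : DenseIn (D4 r R x) := by
  classical
  intro p0
  obtain ⟨α, δ⟩ := x
  simp only at hζx hθ hcl
  obtain ⟨p, hp3, hpp⟩ := D3_dense (r := r) (R := R) δ (hζ.imp fun z hz => hz.trans hζx) p0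
  obtain ⟨b, hb, hb1, hb2⟩ := hp3
  rcases lt_or_eq_of_le hb1 with hb1 | hb1
  · exact ⟨p, Or.inl ⟨b, hb, hb1, hb2⟩, hpp⟩
  by_cases hR : b.2.2 ∈ R α δ
  · exact ⟨p, Or.inr (Or.inl ⟨b, hb, hb1, hR⟩), hpp⟩
  -- the finite bound ε
  obtain ⟨ε, hεδ, hζε, hε⟩ : ∃ ε < δ, ζ ≤ ε ∧ ∀ b' ∈ p.B, b'.1 < δ → b'.2.1 ≤ ε := by
    have main : ∀ s : Finset (W × W × W), s ⊆ p.B →
        ∃ ε < δ, ζ ≤ ε ∧ ∀ b' ∈ s, b'.1 < δ → b'.2.1 ≤ ε := by
      intro s
      induction s using Finset.induction_on with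
      | empty => exact fun _ => ⟨ζ, hζx, le_rfl, by simp⟩
      | insert c s hc ih =>
        intro hs
        obtain ⟨ε, h1, h2, h3⟩ := ih fun y hy => hs (Finset.mem_insert_of_mem hy)
        have hcB := hs (Finset.mem_insert_self c s)
        by_cases hcδ : c.1 < δ
        · have h4 : c.2.1 < δ := by
            have := p.hB2 c hcB b hb (by rw [hb1]; exact hcδ)
            rwa [hb1] at this
          refine ⟨max ε c.2.1, max_lt h1 h4, h2.trans (le_max_left _ _), ?_⟩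
          intro b' hb' hlt
          rcases Finset.mem_insert.1 hb' with rfl | hb'
          · exact le_max_right _ _
          · exact (h3 b' hb' hlt).trans (le_max_left _ _)
        · refine ⟨ε, h1, h2, ?_⟩
          intro b' hb' hlt
          rcases Finset.mem_insert.1 hb' with rfl | hb'
          · exact absurd hlt hcδ
          · exact h3 b' hb' hlt
    exact main p.B (Finset.Subset.refl _)
  let L : List (Set (K × W)) := ((p.A.filter fun a => a.1 < δ).toList.map Prod.snd) ++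
    (p.h.toList.map fun y => ({y.1} : Set (K × W)))
  have hL : ∀ a ∈ L, Small r ε a := by
    intro a ha
    rcases List.mem_append.1 ha with ha | ha
    · obtain ⟨a', ha', rfl⟩ := List.mem_map.1 ha
      rw [Finset.mem_toList, Finset.mem_filter] at ha'
      obtain ⟨-, b', hb', h1, h2, -⟩ := p.hA a' ha'.1
      exact h2.mono (hε b' hb' (by rw [h1]; exact ha'.2))
    · obtain ⟨y, hy, rfl⟩ := List.mem_map.1 ha
      obtain ⟨z, hz⟩ := hζ
      refine ⟨fun _ => z, fun _ _ => hz.trans_le hζε, ?_⟩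
      rintro u hu v hv huv
      rw [Set.mem_singleton_iff.1 hu, Set.mem_singleton_iff.1 hv] at huv
      exact absurd huv (hr _)
  obtain ⟨i, hi, hi2⟩ := hθ L.length ε L rfl hL
  have hiδ : i < δ := hi.trans (hcl _ ε hεδ)
  have hidom : ∀ v, ((α, i), v) ∉ p.h := by
    intro v hv
    refine hi2 {(α, i)} (List.mem_append.2 (Or.inr ?_)) rfl
    exact List.mem_map.2 ⟨((α, i), v), Finset.mem_toList.2 hv, rfl⟩
  refine ⟨⟨p.B, insert ((α, i), δ) p.h, p.A, p.hB1, p.hB2, p.hB3, ?_, p.hA, ?_⟩, ?_, ?_⟩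
  · intro y v w hv hw
    rcases Finset.mem_insert.1 hv with hv | hv <;> rcases Finset.mem_insert.1 hw with hw | hw
    · exact (Prod.mk.inj hv).2.trans (Prod.mk.inj hw).2.symm
    · rw [(Prod.mk.inj hv).1] at hw
      exact absurd hw (hidom w)
    · rw [(Prod.mk.inj hw).1] at hv
      exact absurd hv (hidom v)
    · exact p.hh y v w hv hw
  · intro a ha y hy hya
    rcases Finset.mem_insert.1 hy with rfl | hy
    · by_contra hcon
      rcases lt_or_eq_of_le (not_lt.1 hcon) with hlt | heq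
      · refine hi2 a.2 (List.mem_append.2 (Or.inl ?_)) hya
        refine List.mem_map.2 ⟨a, ?_, rfl⟩
        rw [Finset.mem_toList, Finset.mem_filter]
        exact ⟨ha, hlt⟩
      · obtain ⟨-, b', hb', h1, -, h3⟩ := p.hA a ha
        have h4 : b' = b := p.hB3 b' hb' b hb (by rw [h1, hb1]; exact heq)
        have h5 := h3 _ hya
        rw [h4] at h5
        simp only at heq h5
        rw [heq] at h5
        exact hR h5
    · exact p.hAh a ha y hy hya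
  · exact Or.inr (Or.inr ⟨i, hiδ, δ, le_rfl, Finset.mem_insert_self _ _⟩)
  · refine le_trans ?_ hpp
    exact ⟨Finset.Subset.refl _, Finset.subset_insert _ _, Finset.Subset.refl _⟩

theorem unif [IsWellOrder (K × W) r] (hK : #K ≤ aleph 2) (hFA : FAaleph2 (Cond r R)) :
    ∃ f : W → W, ∀ α : K, ∃ C : Set W, IsClub1 C ∧ ∀ δ ∈ C, f δ ∈ R α δ := by
  classical
  have hirr : ∀ y : K × W, ¬ r y y := fun y => irrefl_of r y
  have hav : ∀ α : K, ∀ (m : ℕ) (ε : W), ∃ θ : W, ∀ A : List (Set (K × W)), A.length = m →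
      (∀ a ∈ A, Small r ε a) → ∃ i < θ, ∀ a ∈ A, (α, i) ∉ a := by
    intro α m ε
    obtain ⟨θ, hθ⟩ := avoid r 1 (fun (_ : Fin 1) (i : W) => (α, i))
      (fun _ => fun i j h => (Prod.mk.inj h).2) m ε
    refine ⟨θ, fun A hA hs => ?_⟩
    obtain ⟨i, h1, h2⟩ := hθ A hA hs
    exact ⟨i, h1, fun a ha => h2 a ha 0⟩
  choose θ hθ using hav
  obtain ⟨v0, hv0⟩ := exists_bot (W := W)
  obtain ⟨ζ, hζ⟩ := Om1.exists_gt v0
  let good : Set (K × W) := {x | ζ < x.2 ∧ ∀ m, ∀ ε < x.2, θ x.1 m ε < x.2}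
  let F : Set (Set (Cond r R)) := Set.range (D1 r R) ∪ Set.range (D2 r R) ∪
    (D3 r R '' {δ | ∃ z, z < δ}) ∪ (D4 r R '' good)
  have hKW : #(K × W) ≤ aleph 2 := by
    rw [Cardinal.mk_prod, Cardinal.lift_id, Cardinal.lift_id]
    refine (mul_le_mul' hK ((Om1.card (W := W)).le.trans (aleph_le_aleph.2 ?_))).trans
      (Cardinal.mul_eq_self (Cardinal.aleph0_le_aleph 2)).le
    exact one_le_two
  have hW2 : #W ≤ aleph 2 := (Om1.card (W := W)).le.trans (aleph_le_aleph.2 one_le_two)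
  have hF : #F ≤ aleph 2 := by
    have h1 : #(Set.range (D1 r R)) ≤ aleph 2 := Cardinal.mk_range_le.trans hKW
    have h2 : #(Set.range (D2 r R)) ≤ aleph 2 := Cardinal.mk_range_le.trans hW2
    have h3 : #(D3 r R '' {δ | ∃ z, z < δ} : Set (Set (Cond r R))) ≤ aleph 2 :=
      Cardinal.mk_image_le.trans ((Cardinal.mk_set_le _).trans hW2)
    have h4 : #(D4 r R '' good : Set (Set (Cond r R))) ≤ aleph 2 :=
      Cardinal.mk_image_le.trans ((Cardinal.mk_set_le _).trans hKW)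
    have hadd : aleph 2 + aleph 2 = aleph 2 := Cardinal.add_eq_self (Cardinal.aleph0_le_aleph 2)
    have h12 : #(Set.range (D1 r R) ∪ Set.range (D2 r R) : Set (Set (Cond r R))) ≤ aleph 2 :=
      (Cardinal.mk_union_le _ _).trans ((add_le_add h1 h2).trans hadd.le)
    have h123 : #(Set.range (D1 r R) ∪ Set.range (D2 r R) ∪
        (D3 r R '' {δ | ∃ z, z < δ}) : Set (Set (Cond r R))) ≤ aleph 2 :=
      (Cardinal.mk_union_le _ _).trans ((add_le_add h12 h3).trans hadd.le)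
    exact (Cardinal.mk_union_le _ _).trans ((add_le_add h123 h4).trans hadd.le)
  have hdense : ∀ D ∈ F, DenseIn D := by
    rintro D (((⟨x, rfl⟩ | ⟨ζ', rfl⟩) | ⟨δ, hδ, rfl⟩) | ⟨x, hx, rfl⟩)
    · exact D1_dense x
    · exact D2_dense ζ'
    · exact D3_dense δ hδ
    · exact D4_dense x ζ ⟨v0, hζ⟩ hx.1 (θ x.1) (hθ x.1) hx.2 hirr
  obtain ⟨G, hG, hGF⟩ := hFA F hF hdense
  have hG1 : ∀ x : K × W, ∃ v, ∃ p ∈ G, (x, v) ∈ p.h := by
    intro x
    obtain ⟨p, hp, v, hv⟩ := hGF (D1 r R x) (Or.inl (Or.inl (Or.inl ⟨x, rfl⟩)))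
    exact ⟨v, p, hp, hv⟩
  have hG2 : ∀ ζ' : W, ∃ p ∈ G, ∃ b ∈ p.B, ζ' < b.1 := by
    intro ζ'
    obtain ⟨p, hp, b, hb⟩ := hGF (D2 r R ζ') (Or.inl (Or.inl (Or.inr ⟨ζ', rfl⟩)))
    exact ⟨p, hp, b, hb⟩
  have hG3 : ∀ δ : W, (∃ z, z < δ) → ∃ p ∈ G, ∃ b ∈ p.B, b.1 ≤ δ ∧ δ ≤ b.2.1 := by
    intro δ hδ
    obtain ⟨p, hp, b, hb⟩ := hGF (D3 r R δ) (Or.inl (Or.inr ⟨δ, hδ, rfl⟩))
    exact ⟨p, hp, b, hb⟩
  have hG4 : ∀ x ∈ good, ∃ p ∈ G, p ∈ D4 r R x := by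
    intro x hx
    obtain ⟨p, hp, hp2⟩ := hGF (D4 r R x) (Or.inr ⟨x, hx, rfl⟩)
    exact ⟨p, hp, hp2⟩
  choose H hH using hG1
  -- coherence
  have cohB2 : ∀ p ∈ G, ∀ q ∈ G, ∀ b ∈ p.B, ∀ b' ∈ q.B, b.1 < b'.1 → b.2.1 < b'.1 := by
    intro p hp q hq b hb b' hb' hlt
    obtain ⟨s, -, h1, h2⟩ := hG.directed p hp q hq
    exact s.hB2 b (h1.1 hb) b' (h2.1 hb') hlt
  have cohB3 : ∀ p ∈ G, ∀ q ∈ G, ∀ b ∈ p.B, ∀ b' ∈ q.B, b.1 = b'.1 → b = b' := by
    intro p hp q hq b hb b' hb' he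
    obtain ⟨s, -, h1, h2⟩ := hG.directed p hp q hq
    exact s.hB3 b (h1.1 hb) b' (h2.1 hb') he
  have cohh : ∀ p ∈ G, ∀ q ∈ G, ∀ x v w, (x, v) ∈ p.h → (x, w) ∈ q.h → v = w := by
    intro p hp q hq x v w hv hw
    obtain ⟨s, -, h1, h2⟩ := hG.directed p hp q hq
    exact s.hh x v w (h1.2.1 hv) (h2.2.1 hw)
  let C : Set W := {δ | ∃ p ∈ G, ∃ b ∈ p.B, b.1 = δ}
  have hC : IsClub1 C := by
    constructor
    · intro z
      obtain ⟨p, hp, b, hb, h1⟩ := hG2 z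
      exact ⟨b.1, ⟨p, hp, b, hb, rfl⟩, h1⟩
    · intro δ hδ hcl
      obtain ⟨p, hp, b, hb, h1, h2⟩ := hG3 δ hδ
      rcases lt_or_eq_of_le h1 with h1 | h1
      · exfalso
        obtain ⟨c, ⟨q, hq, b', hb', rfl⟩, h3, h4⟩ := hcl b.1 h1
        exact absurd h2 (not_le.2 ((cohB2 p hp q hq b hb b' hb' h3).trans h4))
      · exact ⟨p, hp, b, hb, h1⟩
  have hf : ∀ δ : W, ∃ v : W, ∀ p ∈ G, ∀ b ∈ p.B, b.1 = δ → b.2.2 = v := by
    intro δ
    by_cases hδ : δ ∈ C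
    · obtain ⟨p, hp, b, hb, h1⟩ := hδ
      refine ⟨b.2.2, fun q hq b' hb' h2 => ?_⟩
      rw [cohB3 q hq p hp b' hb' b hb (h2.trans h1.symm)]
    · refine ⟨δ, fun q hq b' hb' h2 => absurd ⟨q, hq, b', hb', h2⟩ hδ⟩
  choose f hf using hf
  refine ⟨f, fun α => ?_⟩
  have hcl1 := isClub1_closure_nat (θ α)
  have hcl2 := isClub1_closure (fun i => H (α, i))
  have hcl3 := isClub1_closure (fun _ : W => ζ)
  refine ⟨(C ∩ {δ : W | ∀ n, ∀ i < δ, θ α n i < δ}) ∩ ({δ : W | ∀ i < δ, H (α, i) < δ} ∩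
    {δ : W | ζ < δ}), ?_, ?_⟩
  · refine (hC.inter hcl1).inter (hcl2.inter ?_)
    constructor
    · intro z
      obtain ⟨y, hy⟩ := Om1.bdd ({z, ζ} : Set W) (Set.toFinite _).countable
      exact ⟨y, hy ζ (by simp), hy z (by simp)⟩
    · intro δ hδ hcl
      obtain ⟨z, hz⟩ := hδ
      obtain ⟨c, h1, -, h2⟩ := hcl z hz
      exact h1.trans h2
  · rintro δ ⟨⟨hδC, hδθ⟩, hδH, hδζ⟩
    obtain ⟨p, hp, hp4⟩ := hG4 (α, δ) ⟨hδζ, hδθ⟩
    obtain ⟨q, hq, b', hb', h1⟩ := hδC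
    rcases hp4 with ⟨b, hb, h2, h3⟩ | ⟨b, hb, h2, h3⟩ | ⟨i, hi, v, hv, h2⟩
    · exfalso
      have := cohB2 p hp q hq b hb b' hb' (by rw [h1]; exact h2)
      rw [h1] at this
      exact absurd h3 (not_le.2 this)
    · rw [← hf δ p hp b hb h2]
      exact h3
    · exfalso
      obtain ⟨q', hq', h3⟩ := hH (α, i)
      have e := cohh p hp q' hq' _ _ _ h2 h3
      have h4 := hδH i hi
      rw [← e] at h4
      exact absurd hv (not_le.2 h4)

end

end Pool.Agent.FA2
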